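import Pool.Agent.Lib.HyS2.Defs2

/-!
# HyS2, row ApA: groups with orbits of length at most two

PROOF IN WORDS. Circles = orbits. Let `circ u` be the minimum of the numbers `(σ u).val`, `σ ∈ G`
(a nonempty finite set), `pos u = u.val`, `f = 0`, `F = 0`. `circ (σ u) = circ u` because the orbits are
equal. Points with the same `circ` are in one orbit (both orbits contain the point `circ u`), and an
orbit has at most two points (`horb`). So (P2) is vacuous: `u, v, w` would be three different points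
of one orbit (`v = σ u`, `w = τ u`, contradiction to `horb`), and (P3) is vacuous: `y`, `u`, `σ u` would be
three different points of one orbit.
-/

namespace Pool.Agent.Lib.HyS

/-- the least number of the orbit -/
private noncomputable def apaCirc {n : ℕ} (G : Subgroup (Equiv.Perm (Fin n))) (u : Fin n) : ℕ :=
  sInf {m | ∃ σ ∈ G, (σ u).val = m}

private theorem apaCirc_mem {n : ℕ} (G : Subgroup (Equiv.Perm (Fin n))) (u : Fin n) :
    ∃ σ ∈ G, (σ u).val = apaCirc G u :=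
  Nat.sInf_mem (s := {m | ∃ σ ∈ G, (σ u).val = m}) ⟨u.val, 1, G.one_mem, rfl⟩

private theorem apaCirc_orbit {n : ℕ} (G : Subgroup (Equiv.Perm (Fin n))) (u v : Fin n)
    (h : apaCirc G u = apaCirc G v) : ∃ σ ∈ G, v = σ u := by
  obtain ⟨σ, hσ, h1⟩ := apaCirc_mem G u
  obtain ⟨τ, hτ, h2⟩ := apaCirc_mem G v
  have h3 : τ v = σ u := Fin.ext (by rw [h2, h1, h])
  refine ⟨τ⁻¹ * σ, G.mul_mem (G.inv_mem hτ) hσ, ?_⟩
  rw [Equiv.Perm.mul_apply, ← h3]
  simp

theorem circles_of_orbits {n : ℕ} (G : Subgroup (Equiv.Perm (Fin n)))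
    (horb : ∀ y : Fin n, ∀ σ ∈ G, ∀ τ ∈ G, σ y = y ∨ τ y = y ∨ σ y = τ y) :
    ∃ circ pos : Fin n → ℕ, ∃ f : Fin n → Fin n → ℤ, ∃ F : ℤ, Circles G circ pos f F := by
  refine ⟨apaCirc G, fun u => u.val, fun _ _ => 0, 0, ?_⟩
  refine ⟨fun _ _ => le_rfl, fun _ _ => le_rfl, fun _ _ => rfl, fun u v _ h => Fin.ext h, ?_,
    fun _ _ _ _ _ => rfl, ?_, ?_⟩
  · intro σ hσ u
    unfold apaCirc
    congr 1
    ext m
    constructor
    · rintro ⟨τ, hτ, h⟩
      exact ⟨τ * σ, G.mul_mem hτ hσ, h⟩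
    · rintro ⟨τ, hτ, h⟩
      refine ⟨τ * σ⁻¹, G.mul_mem hτ (G.inv_mem hσ), ?_⟩
      simpa using h
  · intro u v w z h1 h2 _ h4 h5 _
    exfalso
    have h4 : u.val < v.val := h4
    have h5 : v.val < w.val := h5
    obtain ⟨σ, hσ, e1⟩ := apaCirc_orbit G u v h1
    obtain ⟨τ, hτ, e2⟩ := apaCirc_orbit G u w (h1.trans h2)
    rcases horb u σ hσ τ hτ with h | h | h
    · rw [e1, h] at h4
      exact lt_irrefl _ h4
    · rw [e2, h] at h5
      exact lt_asymm h4 h5
    · rw [e1, e2, h] at h5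
      exact lt_irrefl _ h5
  · intro σ hσ u v _ _ h3 y h4 h5 h6
    exfalso
    obtain ⟨τ, hτ, e⟩ := apaCirc_orbit G u y h4.symm
    rcases horb u σ hσ τ hτ with h | h | h
    · exact h3 h
    · exact h5 (e.trans h)
    · exact h6 (e.trans h.symm)

end Pool.Agent.Lib.HyS
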