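import Mathlib

/-!
# HyS2, row Num: the function `t (N - t)` on a circle

PROOF IN WORDS. `chord N a b = |a - b| * (N - |a - b|)` for integers. `chord_cross`: put
`p = b - a`, `q = c - b`, `r = d - c`, `s = N - (d - a)`, so `p, q, r, s ≥ 1` and `p+q+r+s = N`; the
crossing pair has sum `(p+q)(r+s) + (q+r)(s+p) = 2pr + 2qs + pq + qr + rs + sp`, the pairing
`{a,b},{c,d}` has `p(q+r+s) + r(p+q+s)`, difference `2qs > 0`; the pairing `{a,d},{b,c}` has
`s(p+q+r) + q(p+r+s)`, difference `2pr > 0`. `chord_shift`: if `0 ≤ a, b < N` then `(a + m) % N` and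
`(b + m) % N` have the difference `a - b` or `a - b ± N`, and `|x ± N|` instead of `|x|` gives
`N - |x|` (for `|x| < N`). `chord_anti`: for `N = 2 h`: `t (2h - t) = h^2 - (h - t)^2`.
-/

namespace Pool.Agent.Lib.HyS

/-- the chord function -/
def chord (N a b : ℤ) : ℤ := |a - b| * (N - |a - b|)

theorem chord_symm (N a b : ℤ) : chord N a b = chord N b a := by
  unfold chord
  rw [abs_sub_comm]

theorem chord_nonneg {N a b : ℤ} (ha : 0 ≤ a) (hb : 0 ≤ b) (haN : a < N) (hbN : b < N) :
    0 ≤ chord N a b := by
  unfold chord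
  have h1 : |a - b| < N := by
    rw [abs_lt]
    constructor <;> linarith
  exact mul_nonneg (abs_nonneg _) (by linarith)

theorem chord_le {N a b : ℤ} : chord N a b ≤ N * N := by
  unfold chord
  nlinarith [sq_nonneg (2 * N - |a - b|), sq_nonneg |a - b|]

theorem chord_cross {N a b c d : ℤ} (ha : 0 ≤ a) (hab : a < b) (hbc : b < c) (hcd : c < d)
    (hd : d < N) :
    chord N a b + chord N c d < chord N a c + chord N b d ∧
      chord N a d + chord N b c < chord N a c + chord N b d := by
  have key : ∀ x y : ℤ, x < y → chord N x y = (y - x) * (N - (y - x)) := by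
    intro x y hxy
    unfold chord
    rw [abs_sub_comm, abs_of_pos (by linarith)]
  rw [key a b hab, key c d hcd, key a c (by linarith), key b d (by linarith), key a d (by linarith), key b c hbc]
  have h1 : 0 < (c - b) * (N - d + a) := mul_pos (by linarith) (by linarith)
  have h2 : 0 < (b - a) * (d - c) := mul_pos (by linarith) (by linarith)
  constructor <;> nlinarith

theorem chord_shift {N a b : ℤ} (m : ℤ) (ha : 0 ≤ a) (hb : 0 ≤ b) (haN : a < N) (hbN : b < N) :
    chord N ((a + m) % N) ((b + m) % N) = chord N a b := by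
  have hN : 0 < N := by linarith
  have a1 := Int.emod_nonneg (a + m) hN.ne'
  have a2 := Int.emod_lt_of_pos (a + m) hN
  have b1 := Int.emod_nonneg (b + m) hN.ne'
  have b2 := Int.emod_lt_of_pos (b + m) hN
  have a3 := Int.emod_add_mul_ediv (a + m) N
  have b3 := Int.emod_add_mul_ediv (b + m) N
  generalize (a + m) % N = A at *
  generalize (b + m) % N = B at *
  generalize (a + m) / N = u at *
  generalize (b + m) / N = v at *
  obtain ⟨k, hk⟩ : ∃ k, k = u - v := ⟨_, rfl⟩
  have h1 : A - B = a - b - N * k := by
    rw [hk]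
    linarith [mul_sub N u v]
  have hk1 : k < 2 := by
    by_contra hc
    have := mul_le_mul_of_nonneg_left (not_lt.1 hc) hN.le
    linarith
  have hk2 : -2 < k := by
    by_contra hc
    have := mul_le_mul_of_nonneg_left (not_lt.1 hc) hN.le
    linarith
  unfold chord
  have hk3 : k = -1 ∨ k = 0 ∨ k = 1 := by omega
  rcases hk3 with h | h | h
  · rw [h] at h1
    have h2 : |A - B| = A - B := abs_of_pos (by linarith)
    have h3 : |a - b| = b - a := by rw [abs_sub_comm]; exact abs_of_pos (by linarith)
    rw [h2, h3, h1]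
    ring
  · rw [h, mul_zero, sub_zero] at h1
    rw [h1]
  · rw [h] at h1
    have h2 : |A - B| = B - A := by rw [abs_sub_comm]; exact abs_of_pos (by linarith)
    have h3 : |a - b| = a - b := abs_of_pos (by linarith)
    have h4 : B - A = N - (a - b) := by linarith
    rw [h2, h3, h4]
    ring

theorem chord_anti {h a b : ℤ} (hh : 0 < h) (ha : 0 ≤ a) (hb : 0 ≤ b) (haN : a < 2 * h)
    (hbN : b < 2 * h) (hne : b ≠ (a + h) % (2 * h)) :
    chord (2 * h) a b < chord (2 * h) a ((a + h) % (2 * h)) := by
  have key : |a - (a + h) % (2 * h)| = h ∧ |a - b| ≠ h := by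
    rcases lt_or_ge a h with hc | hc
    · have h1 : (a + h) % (2 * h) = a + h := Int.emod_eq_of_lt (by linarith) (by linarith)
      rw [h1] at hne ⊢
      refine ⟨?_, fun h2 => ?_⟩
      · rw [abs_sub_comm, abs_of_pos (by linarith)]
        ring
      · rcases abs_eq hh.le |>.1 h2 with h3 | h3
        · linarith
        · exact hne (by linarith)
    · have h0 : a + h = a - h + 2 * h * 1 := by ring
      have h1 : (a + h) % (2 * h) = a - h := by
        rw [h0, Int.add_mul_emod_self_left]
        exact Int.emod_eq_of_lt (by linarith) (by linarith)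
      rw [h1] at hne ⊢
      refine ⟨?_, fun h2 => ?_⟩
      · rw [abs_of_pos (by linarith)]
        ring
      · rcases abs_eq hh.le |>.1 h2 with h3 | h3
        · exact hne (by linarith)
        · linarith
  unfold chord
  rw [key.1]
  have h1 : |a - b| - h ≠ 0 := sub_ne_zero.2 key.2
  have h2 : 0 < (|a - b| - h) ^ 2 := by positivity
  nlinarith

end Pool.Agent.Lib.HyS
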