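import Mathlib

/-!
# HyS2, row Pos: positions on a circle for a permutation with cycles of equal length

PROOF IN WORDS. `W` is a `g`-invariant set on which all cycles have length `L` (minimal period).
Choose representatives of the cycles of `g` inside `W` (the quotient of `W` by `g.SameCycle`, a finite
set with `β` elements, numbered `j = 0, ..., β-1`, representative `r j`). Every `v ∈ W` is
`(g ^ i) (r j)` for exactly one `j` and one `i < L`; put `pos v = i * β + j`. Then `pos v < L * β`, `pos`
is injective on `W`, and `g v = (g ^ (i+1)) (r j)` has position `(i+1) β + j` if `i + 1 < L`, and `j` if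
`i + 1 = L`: that is `(pos v + β) % (L * β)` in both cases. (If `W` is empty take `β = 1`. The
statement has `1 ≤ β`.)
-/

namespace Pool.Agent.Lib.HyS

theorem exists_pos {n : ℕ} (g : Equiv.Perm (Fin n)) (W : Finset (Fin n)) (L : ℕ) (hL : 1 ≤ L)
    (hW : ∀ v ∈ W, g v ∈ W) (hper : ∀ v ∈ W, Function.minimalPeriod g v = L) :
    ∃ β : ℕ, 1 ≤ β ∧ ∃ pos : Fin n → ℕ, (∀ v ∈ W, pos v < L * β) ∧
      (∀ u ∈ W, ∀ v ∈ W, pos u = pos v → u = v) ∧
      ∀ v ∈ W, pos (g v) = (pos v + β) % (L * β) := by
  classical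
  have hWi : ∀ (i : ℕ), ∀ v ∈ W, g^[i] v ∈ W := by
    intro i
    induction i with
    | zero => exact fun v hv => hv
    | succ i ih =>
      intro v hv
      rw [Function.iterate_succ_apply']
      exact hW _ (ih v hv)
  have hgL : ∀ v ∈ W, g^[L] v = v := by
    intro v hv
    have h1 := Function.iterate_minimalPeriod (f := g) (x := v)
    rw [hper v hv] at h1
    exact h1
  obtain ⟨O, hO⟩ : ∃ O : Fin n → Finset (Fin n), ∀ v x, x ∈ O v ↔ ∃ i, i < L ∧ g^[i] v = x :=
    ⟨fun v => (Finset.range L).image (fun i => g^[i] v), fun v x => by simp⟩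
  have hne : ∀ v, (O v).Nonempty := fun v => ⟨v, (hO v v).2 ⟨0, by omega, rfl⟩⟩
  have hOg : ∀ v ∈ W, O (g v) = O v := by
    intro v hv
    ext x
    rw [hO, hO]
    constructor
    · rintro ⟨i, hi, h1⟩
      rw [← Function.iterate_succ_apply] at h1
      by_cases h2 : i + 1 < L
      · exact ⟨i + 1, h2, h1⟩
      · have h3 : i + 1 = L := by omega
        refine ⟨0, by omega, ?_⟩
        rw [← h1, Nat.succ_eq_add_one, h3, hgL v hv]
        rfl
    · rintro ⟨i, hi, h1⟩
      rcases Nat.eq_zero_or_pos i with h2 | h2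
      · subst h2
        refine ⟨L - 1, by omega, ?_⟩
        rw [← Function.iterate_succ_apply, Nat.succ_eq_add_one, Nat.sub_add_cancel hL, hgL v hv]
        exact h1
      · refine ⟨i - 1, by omega, ?_⟩
        rw [← Function.iterate_succ_apply, Nat.succ_eq_add_one, Nat.sub_add_cancel h2]
        exact h1
  obtain ⟨rep, hrep⟩ : ∃ rep : Fin n → Fin n, ∀ v, rep v = (O v).min' (hne v) := ⟨_, fun v => rfl⟩
  have hmin : ∀ (s t : Finset (Fin n)) (hs : s.Nonempty) (ht : t.Nonempty), s = t → s.min' hs = t.min' ht := by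
    rintro s t hs ht rfl
    rfl
  have hrepg : ∀ v ∈ W, rep (g v) = rep v := by
    intro v hv
    rw [hrep, hrep]
    exact hmin _ _ _ _ (hOg v hv)
  have hrepO : ∀ v, ∃ k, k < L ∧ g^[k] v = rep v := by
    intro v
    rw [← hO, hrep]
    exact Finset.min'_mem _ _
  have hrepW : ∀ v ∈ W, rep v ∈ W := by
    intro v hv
    obtain ⟨k, -, hk⟩ := hrepO v
    rw [← hk]
    exact hWi k v hv
  have hidx0 : ∀ v ∈ W, ∃ i, i < L ∧ g^[i] (rep v) = v := by
    intro v hv
    obtain ⟨k, hkL, hk⟩ := hrepO v
    rcases Nat.eq_zero_or_pos k with h2 | h2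
    · subst h2
      exact ⟨0, by omega, hk.symm⟩
    · refine ⟨L - k, by omega, ?_⟩
      rw [← hk, ← Function.iterate_add_apply, Nat.sub_add_cancel hkL.le, hgL v hv]
  choose! idx hidx using hidx0
  have huniq : ∀ r ∈ W, ∀ i j, i < L → j < L → g^[i] r = g^[j] r → i = j := by
    intro r hr i j hi hj h
    have h1 := Function.iterate_injOn_Iio_minimalPeriod (f := g) (x := r)
    rw [hper r hr] at h1
    exact h1 hi hj h
  refine ⟨n + 1, by omega, fun v => idx v * (n + 1) + (rep v).val, ?_, ?_, ?_⟩
  · intro v hv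
    have h1 := (hidx v hv).1
    have h2 := (rep v).isLt
    have h3 : (idx v + 1) * (n + 1) ≤ L * (n + 1) := Nat.mul_le_mul_right _ h1
    show idx v * (n + 1) + (rep v).val < L * (n + 1)
    rw [Nat.add_mul, one_mul] at h3
    omega
  · intro u hu v hv h
    have h1 := (rep u).isLt
    have h2 := (rep v).isLt
    have h3 : (idx u * (n + 1) + (rep u).val) % (n + 1) = (idx v * (n + 1) + (rep v).val) % (n + 1) := by
      have h4 : idx u * (n + 1) + (rep u).val = idx v * (n + 1) + (rep v).val := h
      rw [h4]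
    rw [Nat.mul_add_mod', Nat.mul_add_mod', Nat.mod_eq_of_lt (by omega), Nat.mod_eq_of_lt (by omega)] at h3
    have h5 : rep u = rep v := Fin.ext h3
    have h6 : idx u = idx v := by
      have h4 : idx u * (n + 1) + (rep u).val = idx v * (n + 1) + (rep v).val := h
      rw [h3] at h4
      exact Nat.eq_of_mul_eq_mul_right (Nat.succ_pos n) (Nat.add_right_cancel h4)
    rw [← (hidx u hu).2, ← (hidx v hv).2, h5, h6]
  · intro v hv
    show idx (g v) * (n + 1) + (rep (g v)).val = (idx v * (n + 1) + (rep v).val + (n + 1)) % (L * (n + 1))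
    have h1 := hidx v hv
    have h2 := hidx (g v) (hW v hv)
    rw [hrepg v hv] at h2 ⊢
    have h3 := (rep v).isLt
    have h4 : g^[idx v + 1] (rep v) = g v := by
      rw [Function.iterate_succ_apply', h1.2]
    by_cases h5 : idx v + 1 < L
    · have h6 : idx (g v) = idx v + 1 :=
        huniq (rep v) (hrepW v hv) _ _ h2.1 h5 (h2.2.trans h4.symm)
      have h7 : (idx v + 1 + 1) * (n + 1) ≤ L * (n + 1) := Nat.mul_le_mul_right _ h5
      rw [h6, Nat.mod_eq_of_lt]
      · ring
      · have h8 : (idx v + 1 + 1) * (n + 1) = idx v * (n + 1) + (n + 1) + (n + 1) := by ring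
        rw [h8] at h7
        omega
    · have h6 : idx v + 1 = L := by omega
      have h7 : g v = rep v := by
        rw [← h4, h6, hgL _ (hrepW v hv)]
      have h8 : idx (g v) = 0 :=
        huniq (rep v) (hrepW v hv) _ _ h2.1 (by omega) (h2.2.trans h7)
      have h9 : idx v * (n + 1) + (rep v).val + (n + 1) = (rep v).val + L * (n + 1) := by
        rw [← h6]
        ring
      have h10 : n + 1 ≤ L * (n + 1) := Nat.le_mul_of_pos_left _ hL
      rw [h8, h9, Nat.add_mod_right, Nat.mod_eq_of_lt (by omega), zero_mul, zero_add]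

end Pool.Agent.Lib.HyS
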