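import Pool.Agent.Lib.HyS2.Defs2
import Pool.Agent.Lib.HyS2.Num
import Pool.Agent.Lib.HyS2.Pos

/-!
# HyS2, row ApB: cyclic groups with cycles of length `c` or `2 c`

PROOF IN WORDS. `c ≥ 1` (a minimal period of a permutation of a finite set is positive; if `n = 0` all
is trivial, take e.g. constant functions). `W0 = {v | minimalPeriod g v = c}`,
`W1 = {v | minimalPeriod g v = 2 c}`: they are disjoint (`c ≥ 1`), invariant (the period of `g v` is the
period of `v`), and cover everything. `exists_pos` gives `β0, pos0` for `W0` (`L = c`) and `β1, pos1` for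
`W1` (`L = 2 c`). Let `circ v = 0` on `W0`, `1` on `W1`, `pos v = pos0 v` or `pos1 v`,
`f u v = chord (c * β0) (pos0 u) (pos0 v)` for `u, v ∈ W0`, `chord (2 * c * β1) (pos1 u) (pos1 v)` for
`u, v ∈ W1`, and `0` for mixed pairs; `F = (c β0)^2 + (2 c β1)^2`. For `σ = g ^ m` (`m : ℤ`, may be taken
natural as `g` has finite order): `pos (σ v) = (pos v + m β) % (L β)` by induction, so (P1) is
`chord_shift`; (P2) is `chord_cross`; (P3): let `σ = g ^ m` fix `v` and move `u` in the other circle. If
`v ∈ W1`, then `2 c ∣ m`, so `σ u = u`, contradiction. So `v ∈ W0`, `c ∣ m`, `u ∈ W1`, and `σ u ≠ u` means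
`2 c ∤ m`, so `m = c (2 i + 1)` and `pos (σ u) = (pos u + c β1) % (2 c β1)`, the antipodal point:
`chord_anti` with `h = c β1`, where `y ≠ σ u` means `pos y ≠ pos (σ u)` by injectivity.
-/

namespace Pool.Agent.Lib.HyS

private theorem apb_per {n : ℕ} (g : Equiv.Perm (Fin n)) (v : Fin n) : v ∈ Function.periodicPts g := by
  refine Function.mk_mem_periodicPts (orderOf_pos g) ?_
  show (⇑g)^[orderOf g] v = v
  rw [Equiv.Perm.iterate_eq_pow, pow_orderOf_eq_one]
  rfl

private theorem apb_pos {n : ℕ} (g : Equiv.Perm (Fin n)) (v : Fin n) : 0 < Function.minimalPeriod g v :=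
  Function.minimalPeriod_pos_of_mem_periodicPts (apb_per g v)

private theorem apb_app {n : ℕ} (g : Equiv.Perm (Fin n)) (v : Fin n) :
    Function.minimalPeriod g (g v) = Function.minimalPeriod g v :=
  Function.minimalPeriod_apply (apb_per g v)

private theorem apb_data {n : ℕ} (g : Equiv.Perm (Fin n)) (c : ℕ)
    (hc : ∀ v, Function.minimalPeriod g v = c ∨ Function.minimalPeriod g v = 2 * c) :
    ∃ pos β : Fin n → ℕ,
      (∀ u v, Function.minimalPeriod g u = Function.minimalPeriod g v → β u = β v) ∧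
      (∀ v, 1 ≤ β v ∧ pos v < Function.minimalPeriod g v * β v ∧
        pos (g v) = (pos v + β v) % (Function.minimalPeriod g v * β v)) ∧
      ∀ u v, Function.minimalPeriod g u = Function.minimalPeriod g v → pos u = pos v → u = v := by
  classical
  rcases Nat.eq_zero_or_pos c with h | h
  · have hF : ∀ v : Fin n, False := by
      intro v
      have h1 := apb_pos g v
      rcases hc v with h2 | h2 <;> omega
    exact ⟨fun _ => 0, fun _ => 1, fun u => (hF u).elim, fun v => (hF v).elim, fun u => (hF u).elim⟩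
  · obtain ⟨β0, hβ0, pos0, a0, b0, c0⟩ := exists_pos g
      (Finset.univ.filter fun v => Function.minimalPeriod g v = c) c h
      (fun v hv => by
        rw [Finset.mem_filter] at hv ⊢
        exact ⟨Finset.mem_univ _, by rw [apb_app]; exact hv.2⟩)
      (fun v hv => (Finset.mem_filter.1 hv).2)
    obtain ⟨β1, hβ1, pos1, a1, b1, c1⟩ := exists_pos g
      (Finset.univ.filter fun v => Function.minimalPeriod g v = 2 * c) (2 * c) (by omega)
      (fun v hv => by
        rw [Finset.mem_filter] at hv ⊢
        exact ⟨Finset.mem_univ _, by rw [apb_app]; exact hv.2⟩)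
      (fun v hv => (Finset.mem_filter.1 hv).2)
    refine ⟨fun v => if Function.minimalPeriod g v = c then pos0 v else pos1 v,
      fun v => if Function.minimalPeriod g v = c then β0 else β1, ?_, ?_, ?_⟩
    · intro u v huv
      simp only [huv]
    · intro v
      simp only [apb_app]
      rcases hc v with h1 | h1
      · have hv : v ∈ Finset.univ.filter fun v => Function.minimalPeriod g v = c :=
          Finset.mem_filter.2 ⟨Finset.mem_univ _, h1⟩
        rw [if_pos h1, if_pos h1, if_pos h1, h1]
        exact ⟨hβ0, a0 v hv, c0 v hv⟩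
      · have hv : v ∈ Finset.univ.filter fun v => Function.minimalPeriod g v = 2 * c :=
          Finset.mem_filter.2 ⟨Finset.mem_univ _, h1⟩
        have h2 : ¬ Function.minimalPeriod g v = c := by omega
        rw [if_neg h2, if_neg h2, if_neg h2, h1]
        exact ⟨hβ1, a1 v hv, c1 v hv⟩
    · intro u v huv hp
      simp only [huv] at hp
      rcases hc v with h1 | h1
      · rw [if_pos h1, if_pos h1] at hp
        exact b0 u (Finset.mem_filter.2 ⟨Finset.mem_univ _, huv.trans h1⟩) v
          (Finset.mem_filter.2 ⟨Finset.mem_univ _, h1⟩) hp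
      · have h2 : ¬ Function.minimalPeriod g v = c := by omega
        rw [if_neg h2, if_neg h2] at hp
        exact b1 u (Finset.mem_filter.2 ⟨Finset.mem_univ _, huv.trans h1⟩) v
          (Finset.mem_filter.2 ⟨Finset.mem_univ _, h1⟩) hp

private theorem apb_pow {n : ℕ} (g : Equiv.Perm (Fin n)) (pos β : Fin n → ℕ)
    (h1 : ∀ u v, Function.minimalPeriod g u = Function.minimalPeriod g v → β u = β v)
    (h2 : ∀ v, 1 ≤ β v ∧ pos v < Function.minimalPeriod g v * β v ∧
        pos (g v) = (pos v + β v) % (Function.minimalPeriod g v * β v)) (m : ℕ) (v : Fin n) :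
    Function.minimalPeriod g ((g ^ m) v) = Function.minimalPeriod g v ∧
      pos ((g ^ m) v) = (pos v + m * β v) % (Function.minimalPeriod g v * β v) := by
  induction m with
  | zero =>
    rw [pow_zero, Equiv.Perm.one_apply, zero_mul, add_zero]
    exact ⟨rfl, (Nat.mod_eq_of_lt (h2 v).2.1).symm⟩
  | succ m ih =>
    obtain ⟨e1, e2⟩ := ih
    have e3 : (g ^ (m + 1)) v = g ((g ^ m) v) := by
      rw [pow_succ', Equiv.Perm.mul_apply]
    have e4 := h1 _ _ e1
    rw [e3]
    refine ⟨(apb_app g _).trans e1, ?_⟩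
    rw [(h2 _).2.2, e1, e4, e2, Nat.mod_add_mod]
    congr 1
    ring

private theorem apb_fix {n : ℕ} (g : Equiv.Perm (Fin n)) (m : ℕ) (v : Fin n) :
    (g ^ m) v = v ↔ Function.minimalPeriod g v ∣ m := by
  rw [← Function.isPeriodicPt_iff_minimalPeriod_dvd, Function.IsPeriodicPt, Function.IsFixedPt,
    Equiv.Perm.iterate_eq_pow]

theorem circles_of_cyclic {n : ℕ} (g : Equiv.Perm (Fin n)) (c : ℕ)
    (hc : ∀ v, Function.minimalPeriod g v = c ∨ Function.minimalPeriod g v = 2 * c) :
    ∃ circ pos : Fin n → ℕ, ∃ f : Fin n → Fin n → ℤ, ∃ F : ℤ,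
      Circles (Subgroup.zpowers g) circ pos f F := by
  obtain ⟨pos, β, hβ, hpos, hinj⟩ := apb_data g c hc
  have hpow := apb_pow g pos β hβ hpos
  have hmem : ∀ σ ∈ Subgroup.zpowers g, ∃ m : ℕ, g ^ m = σ := by
    intro σ hσ
    rw [← mem_powers_iff_mem_zpowers] at hσ
    exact Submonoid.mem_powers_iff _ _ |>.1 hσ
  have hN : ∀ u v, Function.minimalPeriod g u = Function.minimalPeriod g v →
      Function.minimalPeriod g u * β u = Function.minimalPeriod g v * β v := by
    intro u v huv
    rw [hβ u v huv, huv]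
  have hlt : ∀ u v, Function.minimalPeriod g u = Function.minimalPeriod g v →
      (pos v : ℤ) < ((Function.minimalPeriod g u * β u : ℕ) : ℤ) := by
    intro u v huv
    rw [hN u v huv]
    exact_mod_cast (hpos v).2.1
  have h0 : ∀ v, (0 : ℤ) ≤ (pos v : ℤ) := fun v => Int.natCast_nonneg _
  refine ⟨fun v => Function.minimalPeriod g v, pos, fun u v =>
    if Function.minimalPeriod g u = Function.minimalPeriod g v then
      chord ((Function.minimalPeriod g u * β u : ℕ) : ℤ) (pos u) (pos v) else 0,
    ∑ v, ((Function.minimalPeriod g v * β v : ℕ) : ℤ) * ((Function.minimalPeriod g v * β v : ℕ) : ℤ), ?_⟩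
  have hF0 : ∀ u, ((Function.minimalPeriod g u * β u : ℕ) : ℤ) * ((Function.minimalPeriod g u * β u : ℕ) : ℤ) ≤
      ∑ v, ((Function.minimalPeriod g v * β v : ℕ) : ℤ) * ((Function.minimalPeriod g v * β v : ℕ) : ℤ) := by
    intro u
    exact Finset.single_le_sum
      (f := fun v => ((Function.minimalPeriod g v * β v : ℕ) : ℤ) * ((Function.minimalPeriod g v * β v : ℕ) : ℤ))
      (fun v _ => mul_self_nonneg _) (Finset.mem_univ u)
  constructor
  · intro u v
    split_ifs with h
    · exact chord_nonneg (h0 u) (h0 v) (hlt u u rfl) (hlt u v h)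
    · exact le_rfl
  · intro u v
    split_ifs with h
    · exact chord_le.trans (hF0 u)
    · exact (mul_self_nonneg _).trans (hF0 u)
  · intro u v
    by_cases h : Function.minimalPeriod g u = Function.minimalPeriod g v
    · rw [if_pos h, if_pos h.symm, chord_symm, hN u v h]
    · rw [if_neg h, if_neg (Ne.symm h)]
  · intro u v h1 h2
    exact hinj u v h1 h2
  · intro σ hσ u
    obtain ⟨m, rfl⟩ := hmem σ hσ
    exact (hpow m u).1
  · intro σ hσ u v huv
    obtain ⟨m, rfl⟩ := hmem σ hσ
    rw [(hpow m u).1, (hpow m v).1, if_pos huv, if_pos huv, (hpow m u).2, (hpow m v).2,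
      hβ _ _ (hpow m u).1, ← hN u v huv, ← hβ u v huv]
    push_cast
    have h1 := hlt u u rfl
    have h2 := hlt u v huv
    push_cast at h1 h2
    exact chord_shift _ (h0 u) (h0 v) h1 h2
  · intro u v w z h1 h2 h3 h4 h5 h6
    rw [if_pos h1, if_pos h3, if_pos (h1.trans h2), if_pos (h2.trans h3), if_pos (h1.trans (h2.trans h3)),
      if_pos h2, ← hN u w (h1.trans h2), ← hN u v h1]
    exact chord_cross (h0 u) (by exact_mod_cast h4) (by exact_mod_cast h5) (by exact_mod_cast h6)
      (hlt u z (h1.trans (h2.trans h3)))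
  · intro σ hσ u v huv hv hu y hy hyu hyσ
    obtain ⟨m, rfl⟩ := hmem σ hσ
    have e1 := (hpow m u).1
    rw [if_pos hy.symm, if_pos e1.symm]
    rw [apb_fix] at hv
    have hu' : ¬ Function.minimalPeriod g u ∣ m := fun h => hu ((apb_fix g m u).2 h)
    have hLu : Function.minimalPeriod g u = 2 * c ∧ Function.minimalPeriod g v = c := by
      rcases hc u with h1 | h1 <;> rcases hc v with h2 | h2
      · exact absurd (h1.trans h2.symm) huv
      · exfalso
        apply hu'
        rw [h1]
        rw [h2] at hv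
        exact (Dvd.intro_left 2 rfl).trans hv
      · exact ⟨h1, h2⟩
      · exact absurd (h1.trans h2.symm) huv
    obtain ⟨hLu, hLv⟩ := hLu
    have hc0 : 0 < c := by
      have := apb_pos g v
      omega
    rw [hLv] at hv
    obtain ⟨t, rfl⟩ := hv
    rw [hLu] at hu'
    obtain ⟨i, rfl⟩ : ∃ i, t = 2 * i + 1 := by
      rcases Nat.even_or_odd' t with ⟨i, h | h⟩
      · exfalso
        apply hu'
        rw [h]
        exact ⟨i, by ring⟩
      · exact ⟨i, h⟩
    have e2 : pos ((g ^ (c * (2 * i + 1))) u) = (pos u + c * β u) % (2 * (c * β u)) := by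
      rw [(hpow _ u).2, hLu]
      have e3 : pos u + c * (2 * i + 1) * β u = (pos u + c * β u) + i * (2 * (c * β u)) := by ring
      rw [e3, mul_assoc, Nat.add_mul_mod_self_right]
    have hβ1 := (hpos u).1
    have hh : (0 : ℤ) < ((c * β u : ℕ) : ℤ) := by
      exact_mod_cast Nat.mul_pos hc0 (by omega)
    have e4 : ((Function.minimalPeriod g u * β u : ℕ) : ℤ) = 2 * ((c * β u : ℕ) : ℤ) := by
      rw [hLu]
      push_cast
      ring
    have e5 : ((pos ((g ^ (c * (2 * i + 1))) u) : ℕ) : ℤ) =
        ((pos u : ℤ) + ((c * β u : ℕ) : ℤ)) % (2 * ((c * β u : ℕ) : ℤ)) := by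
      rw [e2]
      push_cast
      rfl
    have e6 := hlt u u rfl
    have e7 := hlt u y hy.symm
    rw [e4] at e6 e7 ⊢
    rw [e5]
    refine chord_anti hh (h0 u) (h0 y) e6 e7 ?_
    rw [← e5]
    intro h
    refine hyσ (hinj _ _ (hy.trans e1.symm) ?_)
    exact_mod_cast h

end Pool.Agent.Lib.HyS
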