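import Pool.Agent.Lib.HyS2.Defs2
import Pool.Agent.Lib.HyS2.Num

/-!
# HyS2, row ApC: abelian groups which are cyclic on every orbit

PROOF IN WORDS. `G` is commutative (`hcomm`) and for every `x` there is `g ∈ G` whose powers move `x` to
every point of its orbit (`hcyc`). Circles = orbits. Let `circ u` be the minimum of the numbers
`(σ u).val`, `σ ∈ G`; let `x0 u` be the point of the orbit of `u` with that number (the same point for
all points of the orbit), choose `g` from `hcyc` for `x0`, let `N` be the least positive number with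
`(g^N) x0 = x0` (`Function.minimalPeriod g x0`, or the number of points of the orbit), and let `pos u`
be the unique `i < N` with `(g^i) x0 = u`. Choose `g` and `N` as functions of the point `x0` (that is of
`circ u`), so that they are the same for all points of an orbit. Let
`f u v = chord N (pos u) (pos v)` if `circ u = circ v`, `0` otherwise, and `F` a common upper bound,
e.g. the sum of all `N * N` or `n * n` (`N ≤ n`, `chord_le` with `t (N - t) ≤ N * N ≤ n * n`).
(`symm`: `chord_symm`; `nonneg`: `chord_nonneg`; `inj`: same circle and same position.)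
(P1) For `σ ∈ G`: `σ x0 = (g^m) x0` with some `0 ≤ m < N`; for `u = (g^i) x0`:
`σ u = (g^i) (σ x0) = (g^(i+m)) x0` by commutativity, so `pos (σ u) = (pos u + m) % N`, with the same
`m` for all `u` in the orbit; use `chord_shift`. (P2) is `chord_cross`. (P3): `σ v = v`, so by `hN` and
`σ u ≠ u`: `σ (σ u) = u`, so `2 m ≡ 0` mod `N`, `m ≢ 0`: `N = 2 m` (as `0 < m < N`), and
`pos (σ u) = (pos u + m) % (2 m)`; use `chord_anti` with `h = m` (`y ≠ σ u` in the same circle has another
position).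
-/

namespace Pool.Agent.Lib.HyS

private theorem apc_rep {n : ℕ} (G : Subgroup (Equiv.Perm (Fin n))) :
    ∃ rep : Fin n → Fin n, (∀ u, ∃ σ ∈ G, σ (rep u) = u) ∧
      ∀ u, ∀ σ ∈ G, rep (σ u) = rep u := by
  let r : Setoid (Fin n) :=
    { r := fun u v => ∃ σ ∈ G, σ u = v
      iseqv := ⟨fun u => ⟨1, G.one_mem, rfl⟩,
        fun {u v} ⟨σ, hσ, h⟩ => ⟨σ⁻¹, G.inv_mem hσ, by rw [← h]; simp⟩,
        fun {u v w} ⟨σ, hσ, h⟩ ⟨τ, hτ, h2⟩ => ⟨τ * σ, G.mul_mem hτ hσ, by
          rw [Equiv.Perm.mul_apply, h, h2]⟩⟩ }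
  refine ⟨fun u => Quotient.out (Quotient.mk r u), fun u => ?_, fun u σ hσ => ?_⟩
  · exact Quotient.mk_out (s := r) u
  · have h : Quotient.mk r (σ u) = Quotient.mk r u :=
      Quotient.sound (s := r) (⟨σ⁻¹, G.inv_mem hσ, by simp⟩ : ∃ τ ∈ G, τ (σ u) = u)
    simp only [h]

private theorem apc_data {n : ℕ} (G : Subgroup (Equiv.Perm (Fin n)))
    (hcomm : ∀ σ ∈ G, ∀ τ ∈ G, σ * τ = τ * σ)
    (hcyc : ∀ x : Fin n, ∃ g ∈ G, ∀ σ ∈ G, ∃ i : ℤ, σ x = (g ^ i) x) :
    ∃ (rep : Fin n → Fin n) (N P : Fin n → ℤ), (∀ u, ∀ σ ∈ G, rep (σ u) = rep u) ∧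
      (∀ x, 0 < N x) ∧ (∀ u, 0 ≤ P u) ∧ (∀ u, P u < N (rep u)) ∧
      (∀ u v, rep u = rep v → P u = P v → u = v) ∧
      (∀ x, ∀ σ ∈ G, ∃ m : ℤ, ∀ u, rep u = x → P (σ u) = (P u + m) % N x) := by
  obtain ⟨rep, hrep, hinv⟩ := apc_rep G
  choose γ hγG hγ using hcyc
  have hι : ∀ u, ∃ i : ℤ, (γ (rep u) ^ i) (rep u) = u := fun u => by
    obtain ⟨σ, hσ, h⟩ := hrep u
    obtain ⟨i, hi⟩ := hγ (rep u) σ hσ
    exact ⟨i, by rw [← hi, h]⟩
  choose ι hι using hι
  have hpos : ∀ x, (0 : ℤ) < (MulAction.period (γ x) x : ℤ) := fun x =>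
    Int.natCast_pos.2 (MulAction.period_pos_of_orderOf_pos (orderOf_pos _) _)
  have hmod : ∀ x (j : ℤ), (γ x ^ (j % (MulAction.period (γ x) x : ℤ))) x = (γ x ^ j) x :=
    fun x j => MulAction.zpow_mod_period_smul (g := γ x) (a := x) j
  have huniq : ∀ x (i j : ℤ), (γ x ^ i) x = (γ x ^ j) x →
      i % (MulAction.period (γ x) x : ℤ) = j % (MulAction.period (γ x) x : ℤ) := by
    intro x i j h
    have h1 : (γ x ^ (i - j)) • x = x := by
      rw [sub_eq_neg_add, zpow_add, mul_smul]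
      change (γ x ^ (-j)) ((γ x ^ i) x) = x
      rw [h, zpow_neg]
      simp
    have h2 := MulAction.zpow_smul_eq_iff_period_dvd.1 h1
    exact (Int.modEq_iff_dvd.2 h2).symm
  have hP : ∀ u, (γ (rep u) ^ (ι u % (MulAction.period (γ (rep u)) (rep u) : ℤ))) (rep u) = u :=
    fun u => by rw [hmod, hι]
  refine ⟨rep, fun x => (MulAction.period (γ x) x : ℤ),
    fun u => ι u % (MulAction.period (γ (rep u)) (rep u) : ℤ), hinv, hpos,
    fun u => Int.emod_nonneg _ (hpos _).ne', fun u => Int.emod_lt_of_pos _ (hpos _),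
    fun u v h1 h2 => ?_, fun x σ hσ => ?_⟩
  · rw [← hP u, ← hP v]
    simp only at h2
    rw [h2, h1]
  · obtain ⟨m, hm⟩ := hγ x σ hσ
    refine ⟨m, fun u hu => ?_⟩
    subst hu
    simp only
    rw [hinv u σ hσ, Int.emod_add_emod]
    apply huniq
    have h1 : (γ (rep u) ^ ι (σ u)) (rep u) = σ u := by
      have := hι (σ u)
      rwa [hinv u σ hσ] at this
    rw [h1, zpow_add, Equiv.Perm.mul_apply, ← hm]
    have h2 := hcomm _ (G.zpow_mem (hγG (rep u)) (ι u)) σ hσ
    have h3 := DFunLike.congr_fun h2 (rep u)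
    rw [Equiv.Perm.mul_apply, Equiv.Perm.mul_apply, hι] at h3
    exact h3.symm

theorem circles_of_locally_cyclic {n : ℕ} (G : Subgroup (Equiv.Perm (Fin n)))
    (hcomm : ∀ σ ∈ G, ∀ τ ∈ G, σ * τ = τ * σ)
    (hcyc : ∀ x : Fin n, ∃ g ∈ G, ∀ σ ∈ G, ∃ i : ℤ, σ x = (g ^ i) x)
    (hN : ∀ x y : Fin n, ∀ σ ∈ G, σ x = x → (σ y = y ∨ σ (σ y) = y)) :
    ∃ circ pos : Fin n → ℕ, ∃ f : Fin n → Fin n → ℤ, ∃ F : ℤ, Circles G circ pos f F := by
  obtain ⟨rep, N, P, hinv, hNpos, hP0, hP1, hPinj, hPσ⟩ := apc_data G hcomm hcyc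
  have hrep : ∀ {u v : Fin n}, (rep u).val = (rep v).val → rep u = rep v := fun h => Fin.ext h
  have hf0 : ∀ u v, 0 ≤ (if rep u = rep v then chord (N (rep u)) (P u) (P v) else 0) := by
    intro u v
    split_ifs with h
    · exact chord_nonneg (hP0 u) (hP0 v) (hP1 u) (h ▸ hP1 v)
    · exact le_refl 0
  refine ⟨fun u => (rep u).val, fun u => (P u).toNat,
    fun u v => if rep u = rep v then chord (N (rep u)) (P u) (P v) else 0,
    ∑ u, ∑ v, (if rep u = rep v then chord (N (rep u)) (P u) (P v) else 0), ?_⟩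
  refine ⟨hf0, ?_, ?_, ?_, ?_, ?_, ?_, ?_⟩
  · intro u v
    refine le_trans (Finset.single_le_sum (f := fun w =>
      (if rep u = rep w then chord (N (rep u)) (P u) (P w) else 0)) (fun w _ => hf0 u w)
      (Finset.mem_univ v)) ?_
    exact Finset.single_le_sum (f := fun x =>
      ∑ w, (if rep x = rep w then chord (N (rep x)) (P x) (P w) else 0))
      (fun x _ => Finset.sum_nonneg fun w _ => hf0 x w) (Finset.mem_univ u)
  · intro u v
    by_cases h : rep u = rep v
    · simp only [if_pos h, if_pos h.symm]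
      rw [h, chord_symm]
    · simp only [if_neg h, if_neg (Ne.symm h)]
  · intro u v h1 h2
    refine hPinj u v (hrep h1) ?_
    have h3 := Int.toNat_of_nonneg (hP0 u)
    have h4 := Int.toNat_of_nonneg (hP0 v)
    rw [← h3, ← h4]
    exact congrArg _ h2
  · intro σ hσ u
    simp only [hinv u σ hσ]
  · intro σ hσ u v h
    have h1 := hrep h
    obtain ⟨m, hm⟩ := hPσ (rep u) σ hσ
    simp only [hinv u σ hσ, hinv v σ hσ, if_pos h1]
    rw [hm u rfl, hm v h1.symm]
    exact chord_shift m (hP0 u) (hP0 v) (hP1 u) (h1 ▸ hP1 v)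
  · intro u v w z h1 h2 h3 g1 g2 g3
    have h1 := hrep h1
    have h2 := hrep h2
    have h3 := hrep h3
    have e1 := Int.toNat_of_nonneg (hP0 u)
    have e2 := Int.toNat_of_nonneg (hP0 v)
    have e3 := Int.toNat_of_nonneg (hP0 w)
    have e4 := Int.toNat_of_nonneg (hP0 z)
    have k1 : P u < P v := by omega
    have k2 : P v < P w := by omega
    have k3 : P w < P z := by omega
    have k4 : P z < N (rep u) := by
      rw [h1, h2, h3]
      exact hP1 z
    simp only [if_pos h1, if_pos h2, if_pos h3, if_pos (h1.trans h2), if_pos (h2.trans h3),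
      if_pos ((h1.trans h2).trans h3)]
    rw [← h2, ← h1]
    exact chord_cross (hP0 u) k1 k2 k3 k4
  · intro σ hσ u v _ hv hu y hy hyu hyσ
    have hy := hrep hy
    obtain ⟨m, hm⟩ := hPσ (rep u) σ hσ
    have hσσ : σ (σ u) = u := (hN v u σ hσ hv).resolve_left hu
    have e1 : P (σ u) = (P u + m % N (rep u)) % N (rep u) := by
      rw [hm u rfl, Int.add_emod_emod]
    have e2 : P u = (P u + (m % N (rep u)) * 2) % N (rep u) := by
      have h5 := hm (σ u) (hinv u σ hσ)
      rw [hσσ, e1, Int.emod_add_emod] at h5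
      have h6 : (P u + m % N (rep u) + m % N (rep u)) % N (rep u) =
          (P u + m % N (rep u) + m) % N (rep u) := by rw [Int.add_emod_emod]
      rw [mul_two, ← add_assoc, h6]
      exact h5
    have hm0 := Int.emod_nonneg m (hNpos (rep u)).ne'
    have hm1 := Int.emod_lt_of_pos m (hNpos (rep u))
    generalize hM : m % N (rep u) = M at *
    have hMne : M ≠ 0 := by
      intro h
      apply hu
      apply hPinj _ _ (hinv u σ hσ)
      rw [e1, h, add_zero, Int.emod_eq_of_lt (hP0 u) (hP1 u)]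
    have hdvd : N (rep u) ∣ M * 2 := by
      have h5 := Int.emod_add_mul_ediv (P u + M * 2) (N (rep u))
      rw [← e2] at h5
      exact ⟨_, by linarith⟩
    have hN2 : N (rep u) = 2 * M := by
      obtain ⟨k, hk⟩ := hdvd
      have hMpos : 0 < M := lt_of_le_of_ne hm0 (Ne.symm hMne)
      have hk0 : 0 < k := by
        by_contra hc
        have := mul_le_mul_of_nonneg_left (not_lt.1 hc) (hNpos (rep u)).le
        linarith
      have hk1 : k < 2 := by
        by_contra hc
        have := mul_le_mul_of_nonneg_left (not_lt.1 hc) (hNpos (rep u)).le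
        linarith
      have : k = 1 := by omega
      rw [this] at hk
      linarith
    have hMpos : 0 < M := lt_of_le_of_ne hm0 (Ne.symm hMne)
    simp only [if_pos hy.symm, hinv u σ hσ, if_true]
    have hyN : P y < N (rep u) := hy ▸ hP1 y
    have huN := hP1 u
    rw [e1]
    have hne : P y ≠ (P u + M) % N (rep u) := by
      rw [← e1]
      intro h
      exact hyσ (hPinj _ _ (hy.trans (hinv u σ hσ).symm) h)
    rw [hN2] at hyN huN hne ⊢
    exact chord_anti hMpos (hP0 u) (hP0 y) huN hyN hne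

end Pool.Agent.Lib.HyS
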