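import Pool.Agent.Lib.HyS2.CrA

/-!
# HyS2, row CrB: dependencies vanish on cross pairs

PROOF IN WORDS. Let `c` be a dependency of the optimal set `S` such that the sum of `c` over every
`G`-class (`idx`) of cross pairs vanishes (`hsum`; `X` is the set of cross pairs; `hidx`: two cross
pairs have the same `idx` iff some `σ ∈ G` maps one to the other). Let `{v, u} ∈ S` be a cross pair;
we show `c {v, u} = 0`.
CASE II: for any two cross pairs `{a, b}, {a', b'} ∈ S` with `circ a = circ a'`: `a = a'`. If a cross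
pair `J ∈ S` has the `idx` of `{v, u}`, then `J = {σ v, σ u}` with `σ ∈ G`; `circ (σ u) = circ u` and
`circ (σ v) = circ v`, so `σ u = u`, `σ v = v` (apply the case assumption to both orders of the
pairs) and `J = {v, u}`. So the sum `hsum` at `idx {v,u}` is just `c {v, u}` (other `J` in the class
are not in `S`, so `c J = 0`), hence `c {v,u} = 0`.
CASE I: there are cross pairs `{a, b}, {a', b'} ∈ S` with `circ a = circ a'`, `a ≠ a'`; by `x1`
`b = b'`, and by `x2` every cross pair in `S` contains `b`. So (swap names) `{v, u}` contains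
`b`; let `v = b` (else exchange `u` and `v`), so all cross pairs in `S` are `{v, w}`. Let `J ∈ S` be a
cross pair with the same `idx`, `J = {σ v, σ u}` with `σ ∈ G`; as `v ∈ J` and `circ (σ u) = circ u ≠
circ v`: `σ v = v`. If `σ u = u` for all such `J`, then as before `c {v,u} = 0`. Otherwise fix such a
`σ` with `u' = σ u ≠ u`, `{v, u'} ∈ S`; by (P3, `anti`) `u'` is the only point of its circle with
`f u u'` maximal, so every such `J ≠ {v,u}` is `{v, u'}` (two different points `σ u`, `τ u` would give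
`f u (τ u) < f u (σ u)` and `f u (σ u) < f u (τ u)`). So `c {v,u} + c {v,u'} = 0`. Next, the members of
`S` containing `u` are at most `{v,u}` and `{u,u'}`: a cross pair contains `v`; an inner pair
`{u, y}`, `y ≠ u'`: `x3` (for the cross pair `{v,u'}` and the inner pair `{y, u}`, `y, u ≠ u'`) gives
`f u' u ≤ f y u`, but `anti` gives `f u y < f u u'`. The coordinate `u` of
`∑ I, c I • ind I = 0` gives `c {v,u} + c {u,u'} = 0`. In the same way (with `σ⁻¹`, which fixes `v` and
maps `u'` to `u`; so `u` is the only farthest point of `u'`) the coordinate `u'` gives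
`c {v,u'} + c {u,u'} = 0`. So `c {v,u} = c {v,u'}` and `= - c {v,u'}`, hence `0`.
-/

namespace Pool.Agent.Lib.HyS

private theorem crb_coord_two {n : ℕ} {S : Finset (Finset (Fin n))} {c : Finset (Fin n) → ℝ}
    (hc : Dep S c) (w : Fin n) (A B : Finset (Fin n)) (hAB : A ≠ B) (hA : w ∈ A) (hB : w ∈ B)
    (h : ∀ I ∈ S, w ∈ I → I = A ∨ I = B) : c A + c B = 0 := by
  have h1 : ∑ I, c I * ind I w = 0 := by
    have := congrFun hc.2 w
    simpa [Finset.sum_apply, Pi.smul_apply, smul_eq_mul] using this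
  rw [← Finset.sum_subset (Finset.subset_univ {A, B})] at h1
  · rw [Finset.sum_pair hAB] at h1
    simpa [ind, hA, hB] using h1
  · intro I _ hI
    by_cases hIS : I ∈ S
    · have : w ∉ I := by
        intro hw
        rcases h I hIS hw with rfl | rfl <;> simp at hI
      simp [ind, this]
    · simp [hc.1 I hIS]

private theorem crb_coord_pair {n : ℕ} {G : Subgroup (Equiv.Perm (Fin n))}
    {circ pos : Fin n → ℕ} {f : Fin n → Fin n → ℤ} {F : ℤ} {M : ℝ} {d : Finset (Fin n) → ℝ}
    (hC : Circles G circ pos f F) (hd : Heights circ f F M d) {S : Finset (Finset (Fin n))}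
    (hS : Opt 2 d S) {c : Finset (Fin n) → ℝ} (hc : Dep S c) {v : Fin n}
    (hall : ∀ x y, circ x ≠ circ y → {x, y} ∈ S → v = x ∨ v = y)
    {w w' : Fin n} (hw : circ w ≠ circ v) {σ : Equiv.Perm (Fin n)} (hσ : σ ∈ G) (hσv : σ v = v)
    (hσw : σ w = w') (hne : w' ≠ w) (hS' : {w', v} ∈ S) : c {w, v} + c {w, w'} = 0 := by
  have hcw : circ w' = circ w := by rw [← hσw]; exact hC.inv_circ σ hσ w
  have hwv : w ≠ v := fun h => hw (by rw [h])
  have hw'v : w' ≠ v := fun h => hw (by rw [← hcw, h])
  refine crb_coord_two hc w {w, v} {w, w'} ?_ (by simp) (by simp) ?_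
  · intro h
    have : v ∈ ({w, w'} : Finset (Fin n)) := by rw [← h]; simp
    simp only [Finset.mem_insert, Finset.mem_singleton] at this
    rcases this with h | h
    · exact hwv h.symm
    · exact hw'v h.symm
  · intro I hI hwI
    obtain ⟨y, hyw, rfl⟩ : ∃ y, y ≠ w ∧ I = {w, y} := by
      have hcard := hS.1 I hI
      obtain ⟨p, q, hpq, rfl⟩ := Finset.card_eq_two.1 hcard
      simp only [Finset.mem_insert, Finset.mem_singleton] at hwI
      rcases hwI with rfl | rfl
      · exact ⟨q, hpq.symm, rfl⟩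
      · exact ⟨p, hpq, Finset.pair_comm _ _⟩
    by_cases hcy : circ w = circ y
    · right
      by_cases hyw' : y = w'
      · rw [hyw']
      · exfalso
        have h1 := x3 hC.nonneg hC.le hd hS (u := w') (v := v) (x := y) (y := w)
          (by rw [hcw]; exact hw.symm) (by rw [Finset.pair_comm]; exact hS')
          (by rw [hcw, hcy]) hcw.symm hyw hyw' hne.symm
          (by rw [Finset.pair_comm]; exact hI)
        have h2 := hC.anti σ hσ w v hw hσv (by rw [hσw]; exact hne) y hcy.symm hyw
          (by rw [hσw]; exact hyw')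
        rw [hσw] at h2
        rw [hC.symm w' w, hC.symm y w] at h1
        omega
    · left
      rcases hall w y hcy hI with h | h
      · exact absurd h.symm hwv
      · rw [h]

open Classical in
private theorem crb_sum_class {n : ℕ} {circ : Fin n → ℕ} {S : Finset (Finset (Fin n))}
    (idx : Finset (Fin n) → ℕ) {c : Finset (Fin n) → ℝ} (hc : Dep S c)
    (hsum : ∀ j : ℕ, ∑ I ∈ (Finset.univ.filter (fun I : Finset (Fin n) =>
      ∃ u v, circ u ≠ circ v ∧ I = {u, v})).filter (fun I => idx I = j), c I = 0) (j : ℕ)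
    (T : Finset (Finset (Fin n)))
    (hT : ∀ I ∈ T, (∃ u v, circ u ≠ circ v ∧ I = {u, v}) ∧ idx I = j)
    (hT' : ∀ a b, circ a ≠ circ b → {a, b} ∈ S → idx {a, b} = j → {a, b} ∈ T) :
    ∑ I ∈ T, c I = 0 := by
  rw [← hsum j]
  refine Finset.sum_subset ?_ ?_
  · intro I hI
    simp only [Finset.mem_filter, Finset.mem_univ, true_and]
    exact hT I hI
  · intro I hI hIT
    simp only [Finset.mem_filter, Finset.mem_univ, true_and] at hI
    obtain ⟨⟨a, b, hab, rfl⟩, hj⟩ := hI
    apply hc.1
    intro hS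
    exact hIT (hT' a b hab hS hj)

private theorem crb_star {n : ℕ} {G : Subgroup (Equiv.Perm (Fin n))} {circ pos : Fin n → ℕ}
    {f : Fin n → Fin n → ℤ} {F : ℤ} {M : ℝ} {d : Finset (Fin n) → ℝ}
    (hC : Circles G circ pos f F) (hd : Heights circ f F M d) {S : Finset (Finset (Fin n))}
    (hS : Opt 2 d S) (idx : Finset (Fin n) → ℕ)
    (hidx : ∀ u v a b, circ u ≠ circ v → idx {u, v} = idx {a, b} → circ a ≠ circ b →
      ∃ σ ∈ G, (σ u = a ∧ σ v = b) ∨ (σ u = b ∧ σ v = a))
    {c : Finset (Fin n) → ℝ} (hc : Dep S c)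
    (hcls : ∀ (j : ℕ) (T : Finset (Finset (Fin n))),
      (∀ I ∈ T, (∃ u v, circ u ≠ circ v ∧ I = {u, v}) ∧ idx I = j) →
      (∀ a b, circ a ≠ circ b → {a, b} ∈ S → idx {a, b} = j → {a, b} ∈ T) → ∑ I ∈ T, c I = 0)
    {v : Fin n} (hall : ∀ x y, circ x ≠ circ y → {x, y} ∈ S → v = x ∨ v = y)
    (u : Fin n) (hu : circ u ≠ circ v) (huS : {u, v} ∈ S) : c {u, v} = 0 := by
  have key : ∀ a b, circ a ≠ circ b → {a, b} ∈ S → idx {a, b} = idx {u, v} →
      ∃ τ ∈ G, τ v = v ∧ ({a, b} : Finset (Fin n)) = {τ u, v} := by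
    intro a b hab hSab hi
    obtain ⟨τ, hτ, h⟩ := hidx u v a b hu hi.symm hab
    have hcu := hC.inv_circ τ hτ u
    have hcv := hC.inv_circ τ hτ v
    rcases h with ⟨h1, h2⟩ | ⟨h1, h2⟩
    · rw [h1] at hcu
      rcases hall a b hab hSab with h | h
      · exact absurd (by rw [h]; exact hcu.symm) hu
      · refine ⟨τ, hτ, by rw [h2, h], by rw [h1, h]⟩
    · rw [h1] at hcu
      rcases hall a b hab hSab with h | h
      · exact ⟨τ, hτ, by rw [h2, h], by rw [h1, h, Finset.pair_comm]⟩
      · exact absurd (by rw [h]; exact hcu.symm) hu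
  have huv : u ≠ v := fun h => hu (by rw [h])
  by_cases hex : ∃ σ ∈ G, σ v = v ∧ σ u ≠ u ∧ {σ u, v} ∈ S ∧ idx {σ u, v} = idx {u, v}
  · obtain ⟨σ, hσ, hσv, hσu, hσS, hσi⟩ := hex
    have hcσ := hC.inv_circ σ hσ u
    have hne : ({u, v} : Finset (Fin n)) ≠ {σ u, v} := by
      intro h
      have : u ∈ ({σ u, v} : Finset (Fin n)) := by rw [← h]; simp
      simp only [Finset.mem_insert, Finset.mem_singleton] at this
      rcases this with h | h
      · exact hσu h.symm
      · exact huv h
    have hs := hcls (idx {u, v}) {{u, v}, {σ u, v}} (by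
      intro I hI
      simp only [Finset.mem_insert, Finset.mem_singleton] at hI
      rcases hI with rfl | rfl
      · exact ⟨⟨u, v, hu, rfl⟩, rfl⟩
      · exact ⟨⟨σ u, v, by rw [hcσ]; exact hu, rfl⟩, hσi⟩) (by
      intro a b hab hSab hi
      obtain ⟨τ, hτ, hτv, he⟩ := key a b hab hSab hi
      rw [he]
      simp only [Finset.mem_insert, Finset.mem_singleton]
      by_cases hτu : τ u = u
      · left; rw [hτu]
      · by_cases hτσ : τ u = σ u
        · right; rw [hτσ]
        · exfalso
          have h1 := hC.anti σ hσ u v hu hσv hσu (τ u) (hC.inv_circ τ hτ u) hτu hτσ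
          have h2 := hC.anti τ hτ u v hu hτv hτu (σ u) (hC.inv_circ σ hσ u) hσu
            (fun h => hτσ h.symm)
          omega)
    rw [Finset.sum_pair hne] at hs
    have e1 := crb_coord_pair hC hd hS hc hall hu hσ hσv rfl hσu hσS
    have e2 := crb_coord_pair hC hd hS hc hall (w := σ u) (w' := u)
      (by rw [hcσ]; exact hu) (inv_mem hσ)
      (by rw [Equiv.Perm.inv_eq_iff_eq]; exact hσv.symm)
      (by simp) (fun h => hσu h.symm) huS
    rw [Finset.pair_comm (σ u) u] at e2
    linarith
  · have hs := hcls (idx {u, v}) {{u, v}} (by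
      intro I hI
      simp only [Finset.mem_singleton] at hI
      subst hI
      exact ⟨⟨u, v, hu, rfl⟩, rfl⟩) (by
      intro a b hab hSab hi
      obtain ⟨τ, hτ, hτv, he⟩ := key a b hab hSab hi
      rw [he]
      simp only [Finset.mem_singleton]
      by_contra hne
      refine hex ⟨τ, hτ, hτv, ?_, by rw [← he]; exact hSab, by rw [← he]; exact hi⟩
      intro h
      exact hne (by rw [h]))
    simpa using hs

open Classical in
theorem cross_zero {n : ℕ} {G : Subgroup (Equiv.Perm (Fin n))} {circ pos : Fin n → ℕ}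
    {f : Fin n → Fin n → ℤ} {F : ℤ} {M : ℝ} {d : Finset (Fin n) → ℝ}
    (hC : Circles G circ pos f F) (hd : Heights circ f F M d) {S : Finset (Finset (Fin n))}
    (hS : Opt 2 d S) (idx : Finset (Fin n) → ℕ)
    (hidx : ∀ u v a b, circ u ≠ circ v → idx {u, v} = idx {a, b} → circ a ≠ circ b →
      ∃ σ ∈ G, (σ u = a ∧ σ v = b) ∨ (σ u = b ∧ σ v = a))
    {c : Finset (Fin n) → ℝ} (hc : Dep S c)
    (hsum : ∀ j : ℕ, ∑ I ∈ (Finset.univ.filter (fun I : Finset (Fin n) =>
      ∃ u v, circ u ≠ circ v ∧ I = {u, v})).filter (fun I => idx I = j), c I = 0)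
    (u v : Fin n) (huv : circ u ≠ circ v) : c {u, v} = 0 := by
  classical
  have hcls : ∀ (j : ℕ) (T : Finset (Finset (Fin n))),
      (∀ I ∈ T, (∃ u v, circ u ≠ circ v ∧ I = {u, v}) ∧ idx I = j) →
      (∀ a b, circ a ≠ circ b → {a, b} ∈ S → idx {a, b} = j → {a, b} ∈ T) →
      ∑ I ∈ T, c I = 0 := fun j T h1 h2 => crb_sum_class idx hc hsum j T h1 h2
  by_cases hin : ({u, v} : Finset (Fin n)) ∈ S
  swap
  · exact hc.1 _ hin
  by_cases hcase : ∀ a b a' b', circ a ≠ circ b → circ a' ≠ circ b' → {a, b} ∈ S →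
      {a', b'} ∈ S → circ a = circ a' → a = a'
  · have hs := hcls (idx {u, v}) {{u, v}} (by
      intro I hI
      simp only [Finset.mem_singleton] at hI
      subst hI
      exact ⟨⟨u, v, huv, rfl⟩, rfl⟩) (by
      intro a b hab hSab hi
      simp only [Finset.mem_singleton]
      obtain ⟨τ, hτ, h⟩ := hidx u v a b huv hi.symm hab
      have hcu := hC.inv_circ τ hτ u
      have hcv := hC.inv_circ τ hτ v
      have hin' : ({v, u} : Finset (Fin n)) ∈ S := by rw [Finset.pair_comm]; exact hin
      have hSba : ({b, a} : Finset (Fin n)) ∈ S := by rw [Finset.pair_comm]; exact hSab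
      rcases h with ⟨h1, h2⟩ | ⟨h1, h2⟩
      · rw [h1] at hcu
        rw [h2] at hcv
        rw [hcase a b u v hab huv hSab hin hcu, hcase b a v u hab.symm huv.symm hSba hin' hcv]
      · rw [h1] at hcu
        rw [h2] at hcv
        rw [hcase a b v u hab huv.symm hSab hin' hcv, hcase b a u v hab.symm huv hSba hin hcu,
          Finset.pair_comm])
    simpa using hs
  · push_neg at hcase
    obtain ⟨a, b, a', b', hab, hab', h1, h2, hcc, hne⟩ := hcase
    have hbb : b = b' := x1 hC.nonneg hC.le hd hS hcc hab hab' h1 h2 hne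
    subst hbb
    have hall : ∀ x y, circ x ≠ circ y → {x, y} ∈ S → b = x ∨ b = y := fun x y hxy h3 =>
      x2 hC.nonneg hC.le hd hS hcc hne hab h1 h2 hxy h3
    rcases hall u v huv hin with h | h
    · subst h
      have := crb_star hC hd hS idx hidx hc hcls hall v huv.symm
        (by rw [Finset.pair_comm]; exact hin)
      rw [Finset.pair_comm]
      exact this
    · subst h
      exact crb_star hC hd hS idx hidx hc hcls hall u huv hin

end Pool.Agent.Lib.HyS
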