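import Pool.Agent.Lib.HyS2.Defs2

/-!
# HyS2, row Gen: generic small cross heights

PROOF IN WORDS. For a dependency `c` of `S` let `P c` be the real polynomial
`C (∑ I ∉ X, c I * A I) + ∑ I ∈ X, C (c I) * X^(idx I)`. For each of the finitely many `S` for which
some dependency `c` has `P c ≠ 0` choose one, `c_S`. The finitely many nonzero polynomials `P c_S`
have finitely many roots together, so there is `t` with `0 < t < δ` which is not a root of any of
them (the open interval is infinite: `Set.Ioo_infinite`, `Set.Finite`; e.g.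
`(Set.Ioo_infinite hδ).exists_notMem_finset`). Let `S` be such that all dependencies `c` of `S`
satisfy `∑ I, c I * h t I = 0`, that is `(P c).eval t = 0`. Then `P c = 0` for all dependencies `c` of
`S` (otherwise `c_S` exists and `(P c_S).eval t ≠ 0`). The coefficient of `X^j`, `j ≥ 1`, of `P c` is
`∑ (I ∈ X, idx I = j), c I`, so this sum is zero; for `j = 0` the sum is empty by `hidx`.
-/

namespace Pool.Agent.Lib.HyS

open Classical in
private noncomputable def PP {n : ℕ} (A : Finset (Fin n) → ℝ) (X : Finset (Finset (Fin n)))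
    (idx : Finset (Fin n) → ℕ) (c : Finset (Fin n) → ℝ) : Polynomial ℝ :=
  ∑ I, if I ∈ X then Polynomial.C (c I) * Polynomial.X ^ (idx I) else Polynomial.C (c I * A I)

open Classical in
private theorem PP_eval {n : ℕ} (A : Finset (Fin n) → ℝ) (X : Finset (Finset (Fin n)))
    (idx : Finset (Fin n) → ℕ) (c : Finset (Fin n) → ℝ) (t : ℝ) :
    (PP A X idx c).eval t = ∑ I, c I * (if I ∈ X then t ^ (idx I) else A I) := by
  unfold PP
  rw [Polynomial.eval_finsetSum]
  refine Finset.sum_congr rfl fun I _ => ?_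
  by_cases hI : I ∈ X
  · simp [hI]
  · simp [hI]

open Classical in
private theorem PP_coeff {n : ℕ} (A : Finset (Fin n) → ℝ) (X : Finset (Finset (Fin n)))
    (idx : Finset (Fin n) → ℕ) (c : Finset (Fin n) → ℝ) (j : ℕ) (hj : j ≠ 0) :
    (PP A X idx c).coeff j = ∑ I ∈ X.filter (fun I => idx I = j), c I := by
  unfold PP
  rw [Polynomial.finsetSum_coeff, Finset.sum_filter, ← Finset.sum_filter_add_sum_filter_not Finset.univ (· ∈ X)]
  have h2 : ∑ I ∈ Finset.univ.filter (fun I => ¬ I ∈ X), (if I ∈ X then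
      Polynomial.C (c I) * Polynomial.X ^ (idx I) else Polynomial.C (c I * A I)).coeff j = 0 := by
    refine Finset.sum_eq_zero fun I hI => ?_
    rw [if_neg (Finset.mem_filter.1 hI).2, Polynomial.coeff_C, if_neg hj]
  rw [h2, add_zero]
  refine Finset.sum_congr (by ext I; simp) fun I hI => ?_
  rw [if_pos hI, Polynomial.coeff_C_mul_X_pow]
  by_cases h : idx I = j
  · rw [if_pos h, if_pos h.symm]
  · rw [if_neg h, if_neg (fun h' => h h'.symm)]

open Classical in
theorem generic_heights {n : ℕ} (A : Finset (Fin n) → ℝ) (X : Finset (Finset (Fin n)))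
    (idx : Finset (Fin n) → ℕ) (hidx : ∀ I ∈ X, 1 ≤ idx I) {δ : ℝ} (hδ : 0 < δ) :
    ∃ t : ℝ, 0 < t ∧ t < δ ∧ ∀ S : Finset (Finset (Fin n)),
      (∀ c, Dep S c → ∑ I, c I * (if I ∈ X then t ^ (idx I) else A I) = 0) →
      ∀ c, Dep S c → ∀ j : ℕ, ∑ I ∈ X.filter (fun I => idx I = j), c I = 0 := by
  have hch : ∀ S : Finset (Finset (Fin n)), ∃ c, (∃ c', Dep S c' ∧ PP A X idx c' ≠ 0) →
      Dep S c ∧ PP A X idx c ≠ 0 := by
    intro S
    by_cases h : ∃ c', Dep S c' ∧ PP A X idx c' ≠ 0
    · obtain ⟨c, hc⟩ := h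
      exact ⟨c, fun _ => hc⟩
    · exact ⟨0, fun h' => absurd h' h⟩
  choose g hg using hch
  obtain ⟨t, ht, htZ⟩ := (Set.Ioo_infinite hδ).exists_notMem_finset
    (Finset.univ.biUnion fun S : Finset (Finset (Fin n)) => (PP A X idx (g S)).roots.toFinset)
  refine ⟨t, ht.1, ht.2, fun S hS c hc j => ?_⟩
  have h0 : PP A X idx c = 0 := by
    by_contra hne
    obtain ⟨h1, h2⟩ := hg S ⟨c, hc, hne⟩
    apply htZ
    rw [Finset.mem_biUnion]
    refine ⟨S, Finset.mem_univ _, ?_⟩
    rw [Multiset.mem_toFinset, Polynomial.mem_roots h2, Polynomial.IsRoot.def, PP_eval]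
    exact hS (g S) h1
  by_cases hj : j = 0
  · subst hj
    refine Finset.sum_eq_zero fun I hI => ?_
    have h3 := Finset.mem_filter.1 hI
    have h4 := hidx I h3.1
    omega
  · rw [← PP_coeff A X idx c j hj, h0, Polynomial.coeff_zero]

end Pool.Agent.Lib.HyS
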