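import Pool.Agent.Lib.HyS2.Defs2

/-!
# HyS2, row Idx: an index of the orbits of a permutation group on finite sets

PROOF IN WORDS. Let `e : Finset (Fin n) ≃ Fin N` (`Fintype.equivFin`), and let `idx I` be
`1 +` the minimum of `e (I.map σ.toEmbedding)` over `σ ∈ G` (a nonempty finite set of values;
`Finset.min'` or `sInf`). If `idx I = idx J`, then `I.map σ = J.map τ` for some `σ, τ ∈ G`, so
`J = I.map (τ⁻¹ * σ)`. Invariance: the set of the `J.map τ` (`τ ∈ G`) is the same for `J = I.map σ` and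
`J = I`. (Alternatively use the quotient by the orbit relation and `Fintype.equivFin`.)
-/

namespace Pool.Agent.Lib.HyS

theorem exists_idx {n : ℕ} (G : Subgroup (Equiv.Perm (Fin n))) :
    ∃ idx : Finset (Fin n) → ℕ, (∀ I, 1 ≤ idx I) ∧
      (∀ σ ∈ G, ∀ I : Finset (Fin n), idx (I.map σ.toEmbedding) = idx I) ∧
      ∀ I J : Finset (Fin n), idx I = idx J → ∃ σ ∈ G, I.map σ.toEmbedding = J := by
  have hmap : ∀ (σ τ : Equiv.Perm (Fin n)) (I : Finset (Fin n)),
      (I.map σ.toEmbedding).map τ.toEmbedding = I.map (τ * σ).toEmbedding := by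
    intro σ τ I
    rw [Finset.map_map]
    rfl
  have hone : ∀ I : Finset (Fin n), I.map (1 : Equiv.Perm (Fin n)).toEmbedding = I := fun I => Finset.map_refl
  let s : Setoid (Finset (Fin n)) :=
    { r := fun I J => ∃ σ ∈ G, I.map σ.toEmbedding = J
      iseqv := by
        refine ⟨fun I => ⟨1, G.one_mem, hone I⟩, ?_, ?_⟩
        · rintro I J ⟨σ, hσ, rfl⟩
          exact ⟨σ⁻¹, G.inv_mem hσ, by rw [hmap, inv_mul_cancel, hone]⟩
        · rintro I J K ⟨σ, hσ, rfl⟩ ⟨τ, hτ, rfl⟩
          exact ⟨τ * σ, G.mul_mem hτ hσ, (hmap σ τ I).symm⟩ }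
  let e := Finite.equivFin (Quotient s)
  refine ⟨fun I => 1 + (e (Quotient.mk s I)).val, fun I => Nat.le_add_right _ _, ?_, ?_⟩
  · intro σ hσ I
    have h : Quotient.mk s (I.map σ.toEmbedding) = Quotient.mk s I :=
      Quotient.sound (s := s) ⟨σ⁻¹, G.inv_mem hσ, by rw [hmap, inv_mul_cancel, hone]⟩
    show 1 + (e (Quotient.mk s (I.map σ.toEmbedding))).val = 1 + (e (Quotient.mk s I)).val
    rw [h]
  · intro I J h
    have h1 : e (Quotient.mk s I) = e (Quotient.mk s J) := Fin.ext (Nat.add_left_cancel h)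
    exact Quotient.exact (s := s) (e.injective h1)

end Pool.Agent.Lib.HyS
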