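import Pool.Agent.Lib.HyS.Bas

/-!
# HyS2, row Srt: pairs on a line which share a point or cross are sorted

PROOF IN WORDS. `cum (ind {a, b}) m = (if a < m then 1 else 0) + (if b < m then 1 else 0)` for
`a ≠ b`. So with `D = ind {a,b} - ind {c,d}`: if the pairs are equal, trivial. If they share exactly
one point, then all interval sums of `D` are those of `ind {x} - ind {y}`, in `{-1, 0, 1}`. If they
cross, `a < c < b < d` or `c < a < d < b`: the signs of `D` alternate along the line, so all
interval sums are in `{-1,0,1}`. (Case analysis with `split_ifs` and `abs_le`, `norm_num`.)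
-/

namespace Pool.Agent.Lib.HyS

private theorem srt_cum {N : ℕ} {a b : Fin N} (h : a ≠ b) (m : ℕ) :
    cum (ind ({a, b} : Finset (Fin N))) m = (if a.val < m then 1 else 0) + (if b.val < m then 1 else 0) := by
  have h1 : ∀ i : Fin N, (if i.val < m then ind ({a, b} : Finset (Fin N)) i else 0) =
      (if i = a then (if a.val < m then (1 : ℝ) else 0) else 0) +
        (if i = b then (if b.val < m then (1 : ℝ) else 0) else 0) := by
    intro i
    unfold ind
    by_cases ha : i = a
    · subst ha
      simp [h]
    · by_cases hb : i = b
      · subst hb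
        simp [ha]
      · simp [ha, hb]
  unfold cum
  rw [Finset.sum_congr rfl fun i _ => h1 i, Finset.sum_add_distrib, Finset.sum_ite_eq' Finset.univ a,
    Finset.sum_ite_eq' Finset.univ b, if_pos (Finset.mem_univ _), if_pos (Finset.mem_univ _)]

theorem vert_pair {N : ℕ} {a b : Fin N} (h : a ≠ b) : IsVert 2 (ind ({a, b} : Finset (Fin N))) := by
  refine ⟨fun i => ?_, ?_⟩
  · unfold ind
    split_ifs
    · exact Or.inr rfl
    · exact Or.inl rfl
  · unfold ind
    rw [Finset.sum_boole]
    have h1 : (Finset.univ.filter fun i => i ∈ ({a, b} : Finset (Fin N))) = {a, b} := by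
      ext i
      simp
    rw [h1, Finset.card_pair h]

theorem sorted_share {N : ℕ} {a b c : Fin N} (hab : a ≠ b) (hac : a ≠ c) :
    Sorted (ind ({a, b} : Finset (Fin N))) (ind {a, c}) := by
  rcases le_total b.val c.val with h | h
  · refine Sorted.symm (sorted_of_step fun m => ?_)
    rw [srt_cum hab, srt_cum hac]
    by_cases h1 : b.val < m
    · by_cases h2 : c.val < m
      · left
        rw [if_pos h1, if_pos h2]
      · right
        rw [if_pos h1, if_neg h2]
        ring
    · left
      rw [if_neg h1, if_neg (show ¬ c.val < m by omega)]
  · refine sorted_of_step fun m => ?_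
    rw [srt_cum hab, srt_cum hac]
    by_cases h1 : c.val < m
    · by_cases h2 : b.val < m
      · left
        rw [if_pos h1, if_pos h2]
      · right
        rw [if_pos h1, if_neg h2]
        ring
    · left
      rw [if_neg h1, if_neg (show ¬ b.val < m by omega)]

theorem sorted_cross {N : ℕ} {a b c e : Fin N} (h1 : a < c) (h2 : c < b) (h3 : b < e) :
    Sorted (ind ({a, b} : Finset (Fin N))) (ind {c, e}) := by
  have g1 : a.val < c.val := h1
  have g2 : c.val < b.val := h2
  have g3 : b.val < e.val := h3
  refine Sorted.symm (sorted_of_step fun m => ?_)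
  rw [srt_cum (h1.trans h2).ne, srt_cum (h2.trans h3).ne]
  by_cases k1 : e.val < m
  · left
    rw [if_pos k1, if_pos (show a.val < m by omega), if_pos (show b.val < m by omega), if_pos (show c.val < m by omega)]
  · by_cases k2 : b.val < m
    · right
      rw [if_neg k1, if_pos k2, if_pos (show a.val < m by omega), if_pos (show c.val < m by omega)]
      norm_num
    · by_cases k3 : c.val < m
      · left
        rw [if_neg k1, if_neg k2, if_pos k3, if_pos (show a.val < m by omega)]
      · by_cases k4 : a.val < m
        · right
          rw [if_neg k1, if_neg k2, if_neg k3, if_pos k4]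
          norm_num
        · left
          rw [if_neg k1, if_neg k2, if_neg k3, if_neg k4]

end Pool.Agent.Lib.HyS
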