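import Pool.Agent.Lib.HyS2.Exc
import Pool.Agent.Lib.HyS2.Srt
import Pool.Agent.Lib.HyS.Ind

/-!
# HyS2, row Inn: dependencies which vanish on cross pairs vanish

PROOF IN WORDS. Fix a circle `j` and let `c' I = c I` if `I = {u, v}` with `u ≠ v`, `circ u = circ v = j`
and `0` otherwise. Members `I` of `S` are pairs (`Opt`: card two), so `c I ≠ 0` only for inner pairs
(`h0`), and a point `u` of circle `j` is only in inner pairs of circle `j`; so looking at the
coordinates, `∑ I, c' I • ind I = 0` (coordinate `u` with `circ u = j`: the same sum as for `c`;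
coordinate `u` with `circ u ≠ j`: all terms vanish). Choose `N` larger than all `pos u` and for `u`
let `q u = ⟨pos u, _⟩ : Fin N`. Apply the linear map `Fin n → ℝ` to `Fin N → ℝ` with
`e_u ↦ e_(q u)`: `∑ I, c' I • (ind of the image pair) = 0`, where for an inner pair `I = {u,v}` the
image pair is `{q u, q v}` with `q u ≠ q v` (`inj`). Let `s` be the finset of the vectors
`ind {q u, q v}` for the inner pairs `{u,v} ∈ S` of circle `j`; they are different for different pairs
(`inj`). `s` is `IsAlc 2` if nonempty: `vert_pair`; for two pairs sharing a point `sorted_share`; for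
two disjoint pairs they cross: otherwise, with the four points in increasing position
`u < v < w < z`, the two pairs are `{u,v}, {w,z}` or `{u,z}, {v,w}`, and the exchange to
`{u,w}, {v,z}` (`opt_exch2`) contradicts `Circles.cross` (all heights `M + f`); crossing pairs are
sorted by `sorted_cross` (and `Sorted.symm`). By `alc_weights_zero` all `c'` vanish (transport `c'` to
a function on vectors; `∑ c' = 0` because the sum of all coordinates of the relation is
`2 ∑ c'`).
-/

namespace Pool.Agent.Lib.HyS

private theorem inn_ind_inj {N : ℕ} {I J : Finset (Fin N)} (h : ind I = ind J) : I = J := by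
  ext i
  have h1 := congrFun h i
  unfold ind at h1
  by_cases hI : i ∈ I
  · by_cases hJ : i ∈ J
    · exact ⟨fun _ => hJ, fun _ => hI⟩
    · rw [if_pos hI, if_neg hJ] at h1
      exact absurd h1 one_ne_zero
  · by_cases hJ : i ∈ J
    · rw [if_neg hI, if_pos hJ] at h1
      exact absurd h1.symm one_ne_zero
    · exact ⟨fun h => absurd h hI, fun h => absurd h hJ⟩

private theorem inn_ord {n : ℕ} {G : Subgroup (Equiv.Perm (Fin n))} {circ pos : Fin n → ℕ}
    {f : Fin n → Fin n → ℤ} {F : ℤ} {M : ℝ} {d : Finset (Fin n) → ℝ}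
    (hC : Circles G circ pos f F) (hd : Heights circ f F M d) {S : Finset (Finset (Fin n))}
    (hS : Opt 2 d S) {N : ℕ} (q : Fin n → Fin N) (hq : ∀ u, (q u).val = pos u)
    {a b c e : Fin n} (h1 : circ a = circ b) (h2 : circ b = circ c) (h3 : circ c = circ e)
    (hab : pos a < pos b) (hce : pos c < pos e) (hac : pos a < pos c) (hbc : pos b ≠ pos c)
    (hbe : pos b ≠ pos e) (hS1 : {a, b} ∈ S) (hS2 : {c, e} ∈ S) :
    Sorted (ind ({q a, q b} : Finset (Fin N))) (ind {q c, q e}) := by
  have ne : ∀ {x y : Fin n}, pos x < pos y → x ≠ y := by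
    intro x y h hxy
    rw [hxy] at h
    exact lt_irrefl _ h
  rcases lt_or_gt_of_ne hbc with h | h
  · exfalso
    have hx := (hC.cross a b c e h1 h2 h3 hab h hce).1
    have hy := opt_exch2 hS hS1 hS2 (J1 := {a, c}) (J2 := {b, e}) (Finset.card_pair (ne hac))
      (Finset.card_pair (ne (h.trans hce))) (by
        rw [ind_pair (ne hab), ind_pair (ne hce), ind_pair (ne hac), ind_pair (ne (h.trans hce))]
        abel)
    rw [hd.inner a c (ne hac) (h1.trans h2), hd.inner b e (ne (h.trans hce)) (h2.trans h3),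
      hd.inner a b (ne hab) h1, hd.inner c e (ne hce) h3] at hy
    have hx' : ((f a b + f c e : ℤ) : ℝ) < ((f a c + f b e : ℤ) : ℝ) := Int.cast_lt.2 hx
    push_cast at hx'
    linarith
  · rcases lt_or_gt_of_ne hbe with h' | h'
    · apply sorted_cross
      · rw [Fin.lt_def, hq, hq]
        exact hac
      · rw [Fin.lt_def, hq, hq]
        exact h
      · rw [Fin.lt_def, hq, hq]
        exact h'
    · exfalso
      have hx := (hC.cross a c e b (h1.trans h2) h3 (h3.symm.trans h2.symm) hac hce h').2
      have hy := opt_exch2 hS hS1 hS2 (J1 := {a, e}) (J2 := {c, b})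
        (Finset.card_pair (ne (hac.trans hce))) (Finset.card_pair (ne h)) (by
          rw [ind_pair (ne hab), ind_pair (ne hce), ind_pair (ne (hac.trans hce)), ind_pair (ne h)]
          abel)
      rw [hd.inner a e (ne (hac.trans hce)) ((h1.trans h2).trans h3), hd.inner c b (ne h) h2.symm,
        hd.inner a b (ne hab) h1, hd.inner c e (ne hce) h3] at hy
      have hx' : ((f a b + f c e : ℤ) : ℝ) < ((f a e + f c b : ℤ) : ℝ) := Int.cast_lt.2 hx
      push_cast at hx'
      linarith

private theorem inn_lt {n : ℕ} {G : Subgroup (Equiv.Perm (Fin n))} {circ pos : Fin n → ℕ}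
    {f : Fin n → Fin n → ℤ} {F : ℤ} {M : ℝ} {d : Finset (Fin n) → ℝ}
    (hC : Circles G circ pos f F) (hd : Heights circ f F M d) {S : Finset (Finset (Fin n))}
    (hS : Opt 2 d S) {N : ℕ} (q : Fin n → Fin N) (hq : ∀ u, (q u).val = pos u)
    {a b c e : Fin n} (h1 : circ a = circ b) (h2 : circ b = circ c) (h3 : circ c = circ e)
    (hab : pos a < pos b) (hce : pos c < pos e) (hac : a ≠ c) (hae : a ≠ e) (hbc : b ≠ c)
    (hbe : b ≠ e) (hS1 : {a, b} ∈ S) (hS2 : {c, e} ∈ S) :
    Sorted (ind ({q a, q b} : Finset (Fin N))) (ind {q c, q e}) := by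
  have pac : pos a ≠ pos c := fun h => hac (hC.inj a c (h1.trans h2) h)
  have pae : pos a ≠ pos e := fun h => hae (hC.inj a e ((h1.trans h2).trans h3) h)
  have pbc : pos b ≠ pos c := fun h => hbc (hC.inj b c h2 h)
  have pbe : pos b ≠ pos e := fun h => hbe (hC.inj b e (h2.trans h3) h)
  rcases lt_or_gt_of_ne pac with h | h
  · exact inn_ord hC hd hS q hq h1 h2 h3 hab hce h pbc pbe hS1 hS2
  · exact (inn_ord hC hd hS q hq h3 (h3.symm.trans (h2.symm.trans h1.symm)) h1 hce hab h pae.symm
      pbe.symm hS2 hS1).symm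

private theorem inn_sorted {n : ℕ} {G : Subgroup (Equiv.Perm (Fin n))} {circ pos : Fin n → ℕ}
    {f : Fin n → Fin n → ℤ} {F : ℤ} {M : ℝ} {d : Finset (Fin n) → ℝ}
    (hC : Circles G circ pos f F) (hd : Heights circ f F M d) {S : Finset (Finset (Fin n))}
    (hS : Opt 2 d S) {N : ℕ} (q : Fin n → Fin N) (hq : ∀ u, (q u).val = pos u)
    {a b c e : Fin n} (h1 : circ a = circ b) (h2 : circ b = circ c) (h3 : circ c = circ e)
    (hab : a ≠ b) (hce : c ≠ e) (hS1 : {a, b} ∈ S) (hS2 : {c, e} ∈ S) :
    Sorted (ind ({q a, q b} : Finset (Fin N))) (ind {q c, q e}) := by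
  have qne : ∀ {x y : Fin n}, circ x = circ y → x ≠ y → q x ≠ q y := by
    intro x y hxy hne h
    apply hne
    apply hC.inj x y hxy
    rw [← hq x, ← hq y, h]
  by_cases hac : a = c
  · subst hac
    exact sorted_share (qne h1 hab) (qne h3 hce)
  by_cases hae : a = e
  · subst hae
    rw [Finset.pair_comm (q c) (q a)]
    exact sorted_share (qne h1 hab) (qne h3.symm hce.symm)
  by_cases hbc : b = c
  · subst hbc
    rw [Finset.pair_comm (q a) (q b)]
    exact sorted_share (qne h1.symm hab.symm) (qne h3 hce)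
  by_cases hbe : b = e
  · subst hbe
    rw [Finset.pair_comm (q a) (q b), Finset.pair_comm (q c) (q b)]
    exact sorted_share (qne h1.symm hab.symm) (qne h3.symm hce.symm)
  have pab : pos a ≠ pos b := fun h => hab (hC.inj a b h1 h)
  have pce : pos c ≠ pos e := fun h => hce (hC.inj c e h3 h)
  rcases lt_or_gt_of_ne pab with h | h
  · rcases lt_or_gt_of_ne pce with h' | h'
    · exact inn_lt hC hd hS q hq h1 h2 h3 h h' hac hae hbc hbe hS1 hS2
    · rw [Finset.pair_comm (q c) (q e)]
      rw [Finset.pair_comm] at hS2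
      exact inn_lt hC hd hS q hq h1 (h2.trans h3) h3.symm h h' hae hac hbe hbc hS1 hS2
  · rw [Finset.pair_comm (q a) (q b)]
    rw [Finset.pair_comm] at hS1
    rcases lt_or_gt_of_ne pce with h' | h'
    · exact inn_lt hC hd hS q hq h1.symm (h1.trans h2) h3 h h' hbc hbe hac hae hS1 hS2
    · rw [Finset.pair_comm (q c) (q e)]
      rw [Finset.pair_comm] at hS2
      exact inn_lt hC hd hS q hq h1.symm ((h1.trans h2).trans h3) h3.symm h h' hbe hbc hae hac
        hS1 hS2

theorem inner_zero {n : ℕ} {G : Subgroup (Equiv.Perm (Fin n))} {circ pos : Fin n → ℕ}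
    {f : Fin n → Fin n → ℤ} {F : ℤ} {M : ℝ} {d : Finset (Fin n) → ℝ}
    (hC : Circles G circ pos f F) (hd : Heights circ f F M d) {S : Finset (Finset (Fin n))}
    (hS : Opt 2 d S) {c : Finset (Fin n) → ℝ} (hc : Dep S c)
    (h0 : ∀ u v, circ u ≠ circ v → c {u, v} = 0) : ∀ I, c I = 0 := by
  classical
  intro I0
  by_cases hI0 : I0 ∈ S
  swap
  · exact hc.1 I0 hI0
  obtain ⟨u0, v0, huv0, hIuv⟩ := Finset.card_eq_two.1 (hS.1 I0 hI0)
  by_cases hcirc : circ u0 = circ v0
  swap
  · rw [hIuv]
    exact h0 u0 v0 hcirc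
  -- the pairs of the circle
  obtain ⟨j, hj⟩ : ∃ j, j = circ u0 := ⟨_, rfl⟩
  obtain ⟨P, hP⟩ : ∃ P : Finset (Finset (Fin n)), P = S.filter (fun I => ∀ x ∈ I, circ x = j) :=
    ⟨_, rfl⟩
  have memP : ∀ I, I ∈ P ↔ I ∈ S ∧ ∀ x ∈ I, circ x = j := by
    intro I
    rw [hP, Finset.mem_filter]
  have hI0P : I0 ∈ P := by
    rw [memP]
    refine ⟨hI0, ?_⟩
    intro x hx
    rw [hIuv, Finset.mem_insert, Finset.mem_singleton] at hx
    rcases hx with hx | hx
    · rw [hx, hj]
    · rw [hx, hj, hcirc]
  have pairP : ∀ I ∈ P, ∃ a b, a ≠ b ∧ circ a = j ∧ circ b = j ∧ I = {a, b} := by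
    intro I hI
    obtain ⟨hI1, hI2⟩ := (memP I).1 hI
    obtain ⟨a, b, hab, rfl⟩ := Finset.card_eq_two.1 (hS.1 I hI1)
    exact ⟨a, b, hab, hI2 a (by simp), hI2 b (by simp), rfl⟩
  -- positions
  obtain ⟨N, hN⟩ : ∃ N : ℕ, ∀ u, pos u < N :=
    ⟨Finset.univ.sup pos + 1, fun u => Nat.lt_succ_of_le (Finset.le_sup (Finset.mem_univ u))⟩
  obtain ⟨q, hq⟩ : ∃ q : Fin n → Fin N, ∀ u, (q u).val = pos u :=
    ⟨fun u => ⟨pos u, hN u⟩, fun _ => rfl⟩
  have qinj : ∀ x y, circ x = j → circ y = j → q x = q y → x = y := by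
    intro x y hx hy h
    apply hC.inj x y (hx.trans hy.symm)
    rw [← hq x, ← hq y, h]
  obtain ⟨vec, hvec⟩ : ∃ vec : Finset (Fin n) → (Fin N → ℝ), ∀ I, vec I = ind (I.image q) :=
    ⟨fun I => ind (I.image q), fun _ => rfl⟩
  have vecinj : Set.InjOn vec (P : Set (Finset (Fin n))) := by
    intro I hI J hJ h
    rw [hvec, hvec] at h
    have h1 := inn_ind_inj h
    have hI2 := ((memP I).1 hI).2
    have hJ2 := ((memP J).1 hJ).2
    ext x
    constructor
    · intro hx
      have h2 : q x ∈ J.image q := by
        rw [← h1]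
        exact Finset.mem_image_of_mem q hx
      obtain ⟨y, hy, hxy⟩ := Finset.mem_image.1 h2
      rw [← qinj y x (hJ2 y hy) (hI2 x hx) hxy]
      exact hy
    · intro hx
      have h2 : q x ∈ I.image q := by
        rw [h1]
        exact Finset.mem_image_of_mem q hx
      obtain ⟨y, hy, hxy⟩ := Finset.mem_image.1 h2
      rw [← qinj y x (hI2 y hy) (hJ2 x hx) hxy]
      exact hy
  -- the relation, coordinate by coordinate
  have hcoord : ∀ u, ∑ I ∈ P, c I * ind I u = 0 := by
    intro u
    by_cases hu : circ u = j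
    · have h1 := congrFun hc.2 u
      rw [Finset.sum_apply, Pi.zero_apply] at h1
      have h2 : ∑ I ∈ P, c I * ind I u = ∑ I, c I * ind I u := by
        apply Finset.sum_subset (Finset.subset_univ P)
        intro I _ hI
        by_cases hIS : I ∈ S
        · by_cases huI : u ∈ I
          · obtain ⟨a, b, hab, hIab⟩ := Finset.card_eq_two.1 (hS.1 I hIS)
            have h3 : circ a ≠ circ b := by
              intro h
              apply hI
              rw [memP]
              refine ⟨hIS, ?_⟩
              rw [hIab, Finset.mem_insert, Finset.mem_singleton] at huI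
              intro x hx
              rw [hIab, Finset.mem_insert, Finset.mem_singleton] at hx
              have ha : circ a = j := by
                rcases huI with h4 | h4
                · rw [← h4, hu]
                · rw [h, ← h4, hu]
              rcases hx with hx | hx
              · rw [hx, ha]
              · rw [hx, ← h, ha]
            rw [hIab, h0 a b h3, zero_mul]
          · unfold ind
            rw [if_neg huI, mul_zero]
        · rw [hc.1 I hIS, zero_mul]
      rw [h2]
      rw [← h1]
      refine Finset.sum_congr rfl fun I _ => ?_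
      rw [Pi.smul_apply, smul_eq_mul]
    · apply Finset.sum_eq_zero
      intro I hI
      have h1 : u ∉ I := fun h => hu (((memP I).1 hI).2 u h)
      unfold ind
      rw [if_neg h1, mul_zero]
  have hsum : ∑ I ∈ P, c I = 0 := by
    have h1 : ∑ u, ∑ I ∈ P, c I * ind I u = 0 := Finset.sum_eq_zero fun u _ => hcoord u
    rw [Finset.sum_comm] at h1
    have h2 : ∑ I ∈ P, ∑ u, c I * ind I u = ∑ I ∈ P, c I * 2 := by
      refine Finset.sum_congr rfl fun I hI => ?_
      rw [← Finset.mul_sum]
      congr 1
      unfold ind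
      rw [Finset.sum_ite_mem, Finset.univ_inter, Finset.sum_const, hS.1 I ((memP I).1 hI).1]
      norm_num
    rw [h2, ← Finset.sum_mul] at h1
    linarith
  have hvsum : ∑ I ∈ P, c I • vec I = 0 := by
    funext p
    rw [Finset.sum_apply, Pi.zero_apply]
    have h1 : ∀ I ∈ P, (c I • vec I) p = ∑ u, if q u = p then c I * ind I u else 0 := by
      intro I hI
      have hI2 := ((memP I).1 hI).2
      rw [Pi.smul_apply, smul_eq_mul, hvec]
      by_cases h : p ∈ I.image q
      · obtain ⟨u, hu, hup⟩ := Finset.mem_image.1 h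
        rw [Finset.sum_eq_single u]
        · rw [if_pos hup]
          unfold ind
          rw [if_pos h, if_pos hu]
        · intro w _ hw
          by_cases hwp : q w = p
          · rw [if_pos hwp]
            have h2 : w ∉ I := fun h3 => hw (qinj w u (hI2 w h3) (hI2 u hu) (hwp.trans hup.symm))
            unfold ind
            rw [if_neg h2, mul_zero]
          · rw [if_neg hwp]
        · intro h2
          exact absurd (Finset.mem_univ _) h2
      · rw [Finset.sum_eq_zero]
        · unfold ind
          rw [if_neg h, mul_zero]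
        · intro w _
          by_cases hwp : q w = p
          · rw [if_pos hwp]
            have h2 : w ∉ I := fun h3 => h (Finset.mem_image.2 ⟨w, h3, hwp⟩)
            unfold ind
            rw [if_neg h2, mul_zero]
          · rw [if_neg hwp]
    rw [Finset.sum_congr rfl h1, Finset.sum_comm]
    apply Finset.sum_eq_zero
    intro u _
    by_cases hup : q u = p
    · rw [← hcoord u]
      refine Finset.sum_congr rfl fun I _ => ?_
      rw [if_pos hup]
    · apply Finset.sum_eq_zero
      intro I _
      rw [if_neg hup]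
  -- the alcove
  have hA : IsAlc 2 (P.image vec) := by
    refine ⟨⟨vec I0, Finset.mem_image_of_mem vec hI0P⟩, ?_, ?_⟩
    · intro v hv
      obtain ⟨I, hI, rfl⟩ := Finset.mem_image.1 hv
      obtain ⟨a, b, hab, ha, hb, rfl⟩ := pairP I hI
      rw [hvec, Finset.image_insert, Finset.image_singleton]
      exact vert_pair fun h => hab (qinj a b ha hb h)
    · intro v hv w hw
      obtain ⟨I, hI, rfl⟩ := Finset.mem_image.1 hv
      obtain ⟨J, hJ, rfl⟩ := Finset.mem_image.1 hw
      obtain ⟨a, b, hab, ha, hb, rfl⟩ := pairP I hI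
      obtain ⟨a', b', hab', ha', hb', rfl⟩ := pairP J hJ
      rw [hvec, hvec, Finset.image_insert, Finset.image_singleton, Finset.image_insert,
        Finset.image_singleton]
      exact inn_sorted hC hd hS q hq (ha.trans hb.symm) (hb.trans ha'.symm) (ha'.trans hb'.symm)
        hab hab' ((memP _).1 hI).1 ((memP _).1 hJ).1
  have hinv : ∀ I ∈ P, Function.invFunOn vec (P : Set (Finset (Fin n))) (vec I) = I :=
    fun I hI => vecinj.leftInvOn_invFunOn hI
  have hfin := alc_weights_zero hA
    (fun v => c (Function.invFunOn vec (P : Set (Finset (Fin n))) v))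
    (by
      rw [Finset.sum_image vecinj, ← hsum]
      exact Finset.sum_congr rfl fun I hI => by rw [hinv I hI])
    (by
      rw [Finset.sum_image vecinj, ← hvsum]
      exact Finset.sum_congr rfl fun I hI => by rw [hinv I hI])
    (vec I0) (Finset.mem_image_of_mem vec hI0P)
  simp only [hinv I0 hI0P] at hfin
  exact hfin

end Pool.Agent.Lib.HyS
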