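import Pool.Agent.Lib.HyS2.RgB
import Pool.Agent.Lib.HyS2.Gen
import Pool.Agent.Lib.HyS2.CrB
import Pool.Agent.Lib.HyS2.Inn
import Pool.Agent.Lib.HyS2.Idx

/-!
# HyS2, Cir: existence from circles
-/

namespace Pool.Agent.Lib.HyS

private lemma pair_eq {n : ℕ} {u v a b : Fin n} (h : ({u, v} : Finset (Fin n)) = {a, b}) :
    (u = a ∧ v = b) ∨ (u = b ∧ v = a) := by
  have h1 : u ∈ ({a, b} : Finset (Fin n)) := h ▸ (by simp)
  have h2 : v ∈ ({a, b} : Finset (Fin n)) := h ▸ (by simp)
  have h3 : a ∈ ({u, v} : Finset (Fin n)) := h ▸ (by simp)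
  have h4 : b ∈ ({u, v} : Finset (Fin n)) := h ▸ (by simp)
  simp only [Finset.mem_insert, Finset.mem_singleton] at h1 h2 h3 h4
  rcases h1 with h1 | h1 <;> rcases h2 with h2 | h2
  · subst h1; subst h2
    rcases h4 with h4 | h4 <;> simp [h4]
  · exact Or.inl ⟨h1, h2⟩
  · exact Or.inr ⟨h1, h2⟩
  · subst h1; subst h2
    rcases h3 with h3 | h3 <;> simp [h3]

private lemma map_pair {n : ℕ} (σ : Equiv.Perm (Fin n)) (u v : Fin n) :
    ({u, v} : Finset (Fin n)).map σ.toEmbedding = {σ u, σ v} := by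
  simp [Finset.map_insert, Finset.map_singleton]

open Classical in
/-- the inner heights -/
private noncomputable def inh {n : ℕ} (circ : Fin n → ℕ) (f : Fin n → Fin n → ℤ) (M : ℝ)
    (I : Finset (Fin n)) : ℝ :=
  if h : ∃ u v, u ≠ v ∧ circ u = circ v ∧ I = {u, v} then M + f h.choose h.choose_spec.choose
  else 0

private lemma inh_pair {n : ℕ} {circ : Fin n → ℕ} {f : Fin n → Fin n → ℤ} {M : ℝ}
    (hs : ∀ u v, f u v = f v u) {u v : Fin n} (huv : u ≠ v) (hc : circ u = circ v) :
    inh circ f M {u, v} = M + f u v := by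
  classical
  have h : ∃ a b, a ≠ b ∧ circ a = circ b ∧ ({u, v} : Finset (Fin n)) = {a, b} :=
    ⟨u, v, huv, hc, rfl⟩
  unfold inh
  rw [dif_pos h]
  have key : ∀ a b : Fin n, ({u, v} : Finset (Fin n)) = {a, b} → f a b = f u v := by
    intro a b hab
    rcases pair_eq hab with ⟨h3, h4⟩ | ⟨h3, h4⟩
    · rw [h3, h4]
    · rw [h3, h4, hs b a]
  rw [key _ _ h.choose_spec.choose_spec.2.2]

theorem circles_exist {n : ℕ} {G : Subgroup (Equiv.Perm (Fin n))} {circ pos : Fin n → ℕ}
    {f : Fin n → Fin n → ℤ} {F : ℤ} (hC : Circles G circ pos f F) :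
    ∃ T : LatticeTriangulation 2 n, Invariant G T := by
  classical
  obtain ⟨idx, hidx1, hidxG, hidxE⟩ := exists_idx G
  set M : ℝ := 4 * (F : ℝ) + 4 with hM
  set X : Finset (Finset (Fin n)) := Finset.univ.filter (fun I : Finset (Fin n) =>
      ∃ u v, circ u ≠ circ v ∧ I = {u, v}) with hX
  have memX : ∀ I, I ∈ X ↔ ∃ u v, circ u ≠ circ v ∧ I = {u, v} := by
    intro I
    rw [hX, Finset.mem_filter]
    simp
  obtain ⟨t, ht0, ht1, ht⟩ := generic_heights (inh circ f M) X idx (fun I _ => hidx1 I)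
    (show (0 : ℝ) < 1 / 8 by norm_num)
  set d : Finset (Fin n) → ℝ := fun I => if I ∈ X then t ^ (idx I) else inh circ f M I with hd
  have crossX : ∀ u v, circ u ≠ circ v → ({u, v} : Finset (Fin n)) ∈ X :=
    fun u v h => (memX _).2 ⟨u, v, h, rfl⟩
  have innerX : ∀ u v, circ u = circ v → ({u, v} : Finset (Fin n)) ∉ X := by
    intro u v h hmem
    obtain ⟨a, b, hab, he⟩ := (memX _).1 hmem
    rcases pair_eq he with ⟨h3, h4⟩ | ⟨h3, h4⟩
    · exact hab (h3 ▸ h4 ▸ h)
    · exact hab (h3 ▸ h4 ▸ h.symm)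
  have hH : Heights circ f F M d := by
    refine ⟨le_refl _, ?_, ?_, ?_⟩
    · intro u v huv hc
      simp only [hd]
      rw [if_neg (innerX u v hc), inh_pair hC.symm huv hc]
    · intro u v hc
      simp only [hd]
      rw [if_pos (crossX u v hc)]
      positivity
    · intro u v hc
      simp only [hd]
      rw [if_pos (crossX u v hc)]
      have h1 : t ^ (idx {u, v}) ≤ t ^ 1 :=
        pow_le_pow_of_le_one ht0.le (by linarith) (hidx1 _)
      rw [pow_one] at h1
      linarith
  apply regular_exists (by norm_num) d ?_ G ?_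
  · intro S hS c hc
    have hsum := ht S (fun c' hc' => opt_dep hS hc') c hc
    have hzero := fun u v huv => cross_zero hC hH hS idx ?_ hc hsum u v huv
    · exact inner_zero hC hH hS hc hzero
    · intro u v a b _ hi _
      obtain ⟨σ, hσ, hmap⟩ := hidxE _ _ hi
      rw [map_pair] at hmap
      exact ⟨σ, hσ, pair_eq hmap⟩
  · intro σ hσ I
    have hmem : I.map σ.toEmbedding ∈ X ↔ I ∈ X := by
      constructor
      · intro h
        obtain ⟨a, b, hab, he⟩ := (memX _).1 h
        refine (memX _).2 ⟨σ⁻¹ a, σ⁻¹ b, ?_, ?_⟩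
        · rw [hC.inv_circ σ⁻¹ (G.inv_mem hσ), hC.inv_circ σ⁻¹ (G.inv_mem hσ)]
          exact hab
        · have : (I.map σ.toEmbedding).map (σ⁻¹ : Equiv.Perm (Fin n)).toEmbedding = I := by
            rw [Finset.map_map]
            ext x
            simp
          rw [← this, he, map_pair]
      · intro h
        obtain ⟨a, b, hab, he⟩ := (memX _).1 h
        refine (memX _).2 ⟨σ a, σ b, ?_, ?_⟩
        · rw [hC.inv_circ σ hσ, hC.inv_circ σ hσ]
          exact hab
        · rw [he, map_pair]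
    simp only [hd]
    by_cases hI : I ∈ X
    · rw [if_pos hI, if_pos (hmem.2 hI), hidxG σ hσ]
    · rw [if_neg hI, if_neg (fun h => hI (hmem.1 h))]
      by_cases hp : ∃ u v, u ≠ v ∧ circ u = circ v ∧ I = {u, v}
      · obtain ⟨u, v, huv, hc, rfl⟩ := hp
        rw [map_pair, inh_pair hC.symm huv hc,
          inh_pair hC.symm (fun h => huv (σ.injective h))
            (by rw [hC.inv_circ σ hσ, hC.inv_circ σ hσ, hc]),
          hC.inv_f σ hσ u v hc]
      · have hp' : ¬ ∃ u v, u ≠ v ∧ circ u = circ v ∧ I.map σ.toEmbedding = {u, v} := by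
          rintro ⟨a, b, hab, hc, he⟩
          apply hp
          refine ⟨σ⁻¹ a, σ⁻¹ b, fun h => hab (σ⁻¹.injective h), ?_, ?_⟩
          · rw [hC.inv_circ σ⁻¹ (G.inv_mem hσ), hC.inv_circ σ⁻¹ (G.inv_mem hσ), hc]
          · have : (I.map σ.toEmbedding).map (σ⁻¹ : Equiv.Perm (Fin n)).toEmbedding = I := by
              rw [Finset.map_map]
              ext x
              simp
            rw [← this, he, map_pair]
        unfold inh
        rw [dif_neg hp, dif_neg hp']

end Pool.Agent.Lib.HyS
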