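import Pool.Agent.Lib.HyS2.Exc

/-!
# HyS2, row CrA: exchanges with cross pairs

A cross pair is `{u, v}` with `circ u ≠ circ v`, it has height in `(0, 1/8)`; an inner pair `{u, v}`
(`u ≠ v`, same circle) has height `M + f u v`, `M ≥ 4 F + 4`, `0 ≤ f ≤ F`.
PROOF IN WORDS (in all cases `ind {a,b} = ind {a} + ind {b}`, `ind_pair`, gives the vector identity).
`x1`: otherwise exchange `{u,v}, {u',w} → {u,u'}, {v,w}`: new height `≥ M + 0 + 0 > 1/4`.
`x2`: exchange `{u,v}, {u',v}, {x,y} → {u,u'}, {v,x}, {v,y}`: new height `≥ M`, old `< 3/8`.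
`x2'`: the same exchange: new height `≥ 3 M` (`v, x, y` in one circle), old `< M + F + 1/4`.
`x3`: exchange `{v,u}, {x,y} → {v,x}, {u,y}`: `d {v,x} + M + f u y ≤ d {v,u} + M + f x y`, so
`f u y < f x y + 1/8`, and integers.
-/

namespace Pool.Agent.Lib.HyS

private theorem cra_big {n : ℕ} {circ : Fin n → ℕ} {f : Fin n → Fin n → ℤ} {F : ℤ} {M : ℝ}
    {d : Finset (Fin n) → ℝ} (hf0 : ∀ u v, 0 ≤ f u v) (hfF : ∀ u v, f u v ≤ F)
    (hd : Heights circ f F M d) (u : Fin n) : 4 ≤ M := by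
  have h1 : (0 : ℤ) ≤ F := (hf0 u u).trans (hfF u u)
  have h2 : (0 : ℝ) ≤ (F : ℝ) := by exact_mod_cast h1
  linarith [hd.big]

private theorem cra_inner {n : ℕ} {circ : Fin n → ℕ} {f : Fin n → Fin n → ℤ} {F : ℤ} {M : ℝ}
    {d : Finset (Fin n) → ℝ} (hf0 : ∀ u v, 0 ≤ f u v)
    (hd : Heights circ f F M d) {u v : Fin n} (h : u ≠ v) (hc : circ u = circ v) :
    M ≤ d {u, v} := by
  rw [hd.inner u v h hc]
  have h1 : (0 : ℝ) ≤ (f u v : ℝ) := by exact_mod_cast hf0 u v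
  linarith

private theorem cra_nonneg {n : ℕ} {circ : Fin n → ℕ} {f : Fin n → Fin n → ℤ} {F : ℤ} {M : ℝ}
    {d : Finset (Fin n) → ℝ} (hf0 : ∀ u v, 0 ≤ f u v) (hfF : ∀ u v, f u v ≤ F)
    (hd : Heights circ f F M d) {u v : Fin n} (h : u ≠ v) : 0 ≤ d {u, v} := by
  by_cases hc : circ u = circ v
  · have h1 := cra_inner hf0 hd h hc
    have h2 := cra_big hf0 hfF hd u
    linarith
  · exact (hd.pos u v hc).le

private theorem cra_ne {n : ℕ} {circ : Fin n → ℕ} {u v : Fin n} (h : circ u ≠ circ v) : u ≠ v :=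
  fun e => h (by rw [e])

theorem x1 {n : ℕ} {circ : Fin n → ℕ} {f : Fin n → Fin n → ℤ} {F : ℤ} {M : ℝ}
    {d : Finset (Fin n) → ℝ} (hf0 : ∀ u v, 0 ≤ f u v) (hfF : ∀ u v, f u v ≤ F)
    (hd : Heights circ f F M d) {S : Finset (Finset (Fin n))} (hS : Opt 2 d S)
    {u u' v w : Fin n} (hu : circ u = circ u') (huv : circ u ≠ circ v) (huw : circ u' ≠ circ w)
    (h1 : {u, v} ∈ S) (h2 : {u', w} ∈ S) (hne : u ≠ u') : v = w := by
  by_contra hvw
  have huv' := cra_ne huv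
  have huw' := cra_ne huw
  have h3 := opt_exch2 hS h1 h2 (Finset.card_pair hne) (Finset.card_pair hvw) (by
    rw [ind_pair huv', ind_pair huw', ind_pair hne, ind_pair hvw]
    abel)
  have h4 := cra_inner hf0 hd hne hu
  have h5 := cra_nonneg hf0 hfF hd hvw
  have h6 := cra_big hf0 hfF hd u
  have h7 := hd.small u v huv
  have h8 := hd.small u' w huw
  linarith

theorem x2 {n : ℕ} {circ : Fin n → ℕ} {f : Fin n → Fin n → ℤ} {F : ℤ} {M : ℝ}
    {d : Finset (Fin n) → ℝ} (hf0 : ∀ u v, 0 ≤ f u v) (hfF : ∀ u v, f u v ≤ F)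
    (hd : Heights circ f F M d) {S : Finset (Finset (Fin n))} (hS : Opt 2 d S)
    {u u' v x y : Fin n} (hu : circ u = circ u') (hne : u ≠ u') (huv : circ u ≠ circ v)
    (h1 : {u, v} ∈ S) (h2 : {u', v} ∈ S) (hxy : circ x ≠ circ y) (h3 : {x, y} ∈ S) :
    v = x ∨ v = y := by
  by_contra hcon
  push Not at hcon
  obtain ⟨hvx, hvy⟩ := hcon
  have huv' := cra_ne huv
  have hc' : circ u' ≠ circ v := by rw [← hu]; exact huv
  have hu'v := cra_ne hc'
  have hxy' := cra_ne hxy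
  have h4 := opt_exch3 hS h1 h2 h3 (Finset.card_pair hne) (Finset.card_pair hvx)
    (Finset.card_pair hvy) (by
    rw [ind_pair huv', ind_pair hu'v, ind_pair hxy', ind_pair hne, ind_pair hvx, ind_pair hvy]
    abel)
  have h5 := cra_inner hf0 hd hne hu
  have h6 := cra_nonneg hf0 hfF hd hvx
  have h7 := cra_nonneg hf0 hfF hd hvy
  have h8 := cra_big hf0 hfF hd u
  have h9 := hd.small u v huv
  have h10 := hd.small u' v hc'
  have h11 := hd.small x y hxy
  linarith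

theorem x3 {n : ℕ} {circ : Fin n → ℕ} {f : Fin n → Fin n → ℤ} {F : ℤ} {M : ℝ}
    {d : Finset (Fin n) → ℝ} (hf0 : ∀ u v, 0 ≤ f u v) (hfF : ∀ u v, f u v ≤ F)
    (hd : Heights circ f F M d) {S : Finset (Finset (Fin n))} (hS : Opt 2 d S)
    {u v x y : Fin n} (huv : circ v ≠ circ u) (h1 : {v, u} ∈ S) (hxu : circ x = circ u)
    (hyu : circ y = circ u) (hxy : x ≠ y) (hx : x ≠ u) (hy : y ≠ u) (h2 : {x, y} ∈ S) :
    f u y ≤ f x y := by
  have hvu := cra_ne huv
  have hvx : circ v ≠ circ x := by rw [hxu]; exact huv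
  have hvx' := cra_ne hvx
  have h4 := opt_exch2 hS h1 h2 (Finset.card_pair hvx') (Finset.card_pair hy.symm) (by
    rw [ind_pair hvu, ind_pair hxy, ind_pair hvx', ind_pair hy.symm]
    abel)
  have h5 := hd.pos v x hvx
  have h6 := hd.inner u y hy.symm hyu.symm
  have h7 := hd.small v u huv
  have h8 := hd.inner x y hxy (hxu.trans hyu.symm)
  have h9 : (f u y : ℝ) < (f x y : ℝ) + 1 := by linarith
  have h10 : f u y < f x y + 1 := by exact_mod_cast h9
  omega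

end Pool.Agent.Lib.HyS
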