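import Pool.Agent.Lib.HyS.Defs

/-!
# MP_079fc8_co, phase 3: regular triangulations from heights. Definitions
-/

namespace Pool.Agent.Lib.HyS

/-- `S` is a set of `k`-sets such that every nonnegative combination of its vectors is optimal (has
the largest total height `d`) among all nonnegative combinations of vectors of `k`-sets with the
same value. -/
def Opt {n : ℕ} (k : ℕ) (d : Finset (Fin n) → ℝ) (S : Finset (Finset (Fin n))) : Prop :=
  (∀ I ∈ S, I.card = k) ∧
  ∀ a b : Finset (Fin n) → ℝ, (∀ I, 0 ≤ a I) → (∀ I, 0 ≤ b I) → (∀ I, I ∉ S → a I = 0) →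
    (∀ I, b I ≠ 0 → I.card = k) → ∑ I, a I • ind I = ∑ I, b I • ind I →
    ∑ I, b I * d I ≤ ∑ I, a I * d I

/-- A linear dependency supported on `S`. -/
def Dep {n : ℕ} (S : Finset (Finset (Fin n))) (c : Finset (Fin n) → ℝ) : Prop :=
  (∀ I, I ∉ S → c I = 0) ∧ ∑ I, c I • ind I = 0

/-- Circles: the points with the same `circ` form a circle, `f` is the distance inside a circle,
`pos` the position. (P0): integers `0 ≤ f ≤ F`, symmetric. (P1): invariance. (P2): on a circle, of the
three pairings of four points the crossing one has the strictly largest sum. (P3): if `σ ∈ G` fixes a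
point of another circle and moves `u`, then `σ u` is the only point farthest from `u`. -/
structure Circles {n : ℕ} (G : Subgroup (Equiv.Perm (Fin n))) (circ pos : Fin n → ℕ)
    (f : Fin n → Fin n → ℤ) (F : ℤ) : Prop where
  nonneg : ∀ u v, 0 ≤ f u v
  le : ∀ u v, f u v ≤ F
  symm : ∀ u v, f u v = f v u
  inj : ∀ u v, circ u = circ v → pos u = pos v → u = v
  inv_circ : ∀ σ ∈ G, ∀ u, circ (σ u) = circ u
  inv_f : ∀ σ ∈ G, ∀ u v, circ u = circ v → f (σ u) (σ v) = f u v
  cross : ∀ u v w z, circ u = circ v → circ v = circ w → circ w = circ z →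
    pos u < pos v → pos v < pos w → pos w < pos z →
    f u v + f w z < f u w + f v z ∧ f u z + f v w < f u w + f v z
  anti : ∀ σ ∈ G, ∀ u v, circ u ≠ circ v → σ v = v → σ u ≠ u →
    ∀ y, circ y = circ u → y ≠ u → y ≠ σ u → f u y < f u (σ u)

/-- Heights adapted to circles: `M + f` inside the circles, small positive values `φ` across. -/
structure Heights {n : ℕ} (circ : Fin n → ℕ) (f : Fin n → Fin n → ℤ) (F : ℤ) (M : ℝ)
    (d : Finset (Fin n) → ℝ) : Prop where
  big : 4 * (F : ℝ) + 4 ≤ M
  inner : ∀ u v, u ≠ v → circ u = circ v → d {u, v} = M + f u v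
  pos : ∀ u v, circ u ≠ circ v → 0 < d {u, v}
  small : ∀ u v, circ u ≠ circ v → d {u, v} < 1 / 8

end Pool.Agent.Lib.HyS
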