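import Pool.Agent.Lib.HyS2.Defs2

/-!
# HyS2, row Exc: exchanges in optimal sets

PROOF IN WORDS. `opt_dep`: let `K` be an upper bound of all `|c I|`; `a I = K` on `S`, `0` off `S`;
`b = a + c` and `b' = a - c` are nonnegative, supported on `S` (so on `k`-sets), with the same sum of
vectors. `Opt` gives `∑ b d ≤ ∑ a d` and `∑ b' d ≤ ∑ a d`, so `∑ c d ≤ 0` and `≥ 0`.
`opt_exch2`: `a = Pi.single I1 1 + Pi.single I2 1` (as functions on `Finset (Fin n)`, so `a` has
multiplicity two if `I1 = I2`), `b = Pi.single J1 1 + Pi.single J2 1`;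
`∑ I, (Pi.single J 1 : _ → ℝ) I • ind I = ind J` and `∑ I, Pi.single J 1 I * d I = d J`
(`Finset.sum_ite_eq` after `Pi.single_apply`). `opt_exch3`: the same with three terms.
`opt_pos`: every member of `Opt` has card `k`.
-/

namespace Pool.Agent.Lib.HyS

private theorem single_nonneg' {n : ℕ} (J I : Finset (Fin n)) :
    0 ≤ (Pi.single J 1 : Finset (Fin n) → ℝ) I := by
  by_cases h : I = J
  · subst h
    simp
  · rw [Pi.single_eq_of_ne h]

private theorem single_zero' {n : ℕ} {S : Finset (Finset (Fin n))} {J I : Finset (Fin n)} (hJ : J ∈ S)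
    (hI : I ∉ S) : (Pi.single J 1 : Finset (Fin n) → ℝ) I = 0 := by
  have h : I ≠ J := by
    rintro rfl
    exact hI hJ
  exact Pi.single_eq_of_ne h _

private theorem single_card' {n k : ℕ} {J I : Finset (Fin n)} (hJ : J.card = k) (hI : I.card ≠ k) :
    (Pi.single J 1 : Finset (Fin n) → ℝ) I = 0 := by
  have h : I ≠ J := by
    rintro rfl
    exact hI hJ
  exact Pi.single_eq_of_ne h _

private theorem sum_single_smul {n : ℕ} (J : Finset (Fin n)) :
    ∑ I, (Pi.single J 1 : Finset (Fin n) → ℝ) I • ind I = ind J := by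
  rw [Finset.sum_eq_single J]
  · simp
  · intro I _ h
    rw [Pi.single_eq_of_ne h, zero_smul]
  · intro h
    exact absurd (Finset.mem_univ _) h

private theorem sum_single_mul {n : ℕ} (d : Finset (Fin n) → ℝ) (J : Finset (Fin n)) :
    ∑ I, (Pi.single J 1 : Finset (Fin n) → ℝ) I * d I = d J := by
  rw [Finset.sum_eq_single J]
  · simp
  · intro I _ h
    rw [Pi.single_eq_of_ne h, zero_mul]
  · intro h
    exact absurd (Finset.mem_univ _) h

private theorem dep_le {n k : ℕ} {d : Finset (Fin n) → ℝ} {S : Finset (Finset (Fin n))}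
    (hS : Opt k d S) {c : Finset (Fin n) → ℝ} (hc : Dep S c) : ∑ I, c I * d I ≤ 0 := by
  classical
  have hK0 : ∀ I, |c I| ≤ ∑ I, |c I| := fun I =>
    Finset.single_le_sum (f := fun I => |c I|) (fun _ _ => abs_nonneg _) (Finset.mem_univ I)
  have h := hS.2 (fun I => if I ∈ S then ∑ I, |c I| else 0)
    (fun I => (if I ∈ S then ∑ I, |c I| else 0) + c I)
    (fun I => by
      show 0 ≤ (if I ∈ S then ∑ I, |c I| else 0)
      split_ifs
      · exact (abs_nonneg _).trans (hK0 I)
      · exact le_rfl)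
    (fun I => by
      show 0 ≤ (if I ∈ S then ∑ I, |c I| else 0) + c I
      split_ifs with h
      · have h1 := hK0 I
        have h2 := neg_abs_le (c I)
        linarith
      · rw [hc.1 I h, add_zero])
    (fun I hI => if_neg hI)
    (fun I hI => by
      by_cases h : I ∈ S
      · exact hS.1 I h
      · exfalso
        apply hI
        show (if I ∈ S then ∑ I, |c I| else 0) + c I = 0
        rw [if_neg h, hc.1 I h, add_zero])
    (by simp only [add_smul, Finset.sum_add_distrib, hc.2, add_zero])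
  simp only [add_mul, Finset.sum_add_distrib] at h
  linarith

theorem opt_dep {n k : ℕ} {d : Finset (Fin n) → ℝ} {S : Finset (Finset (Fin n))}
    (hS : Opt k d S) {c : Finset (Fin n) → ℝ} (hc : Dep S c) : ∑ I, c I * d I = 0 := by
  have h1 := dep_le hS hc
  have h2 := dep_le hS (c := fun I => -c I) ⟨fun I hI => by
    show -c I = 0
    rw [hc.1 I hI, neg_zero], by
    simp only [neg_smul, Finset.sum_neg_distrib, hc.2, neg_zero]⟩
  simp only [neg_mul, Finset.sum_neg_distrib] at h2
  linarith

theorem opt_exch2 {n k : ℕ} {d : Finset (Fin n) → ℝ} {S : Finset (Finset (Fin n))}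
    (hS : Opt k d S) {I1 I2 J1 J2 : Finset (Fin n)} (h1 : I1 ∈ S) (h2 : I2 ∈ S)
    (hJ1 : J1.card = k) (hJ2 : J2.card = k) (h : ind I1 + ind I2 = ind J1 + ind J2) :
    d J1 + d J2 ≤ d I1 + d I2 := by
  have key := hS.2
    (fun I => (Pi.single I1 1 : Finset (Fin n) → ℝ) I + (Pi.single I2 1 : Finset (Fin n) → ℝ) I)
    (fun I => (Pi.single J1 1 : Finset (Fin n) → ℝ) I + (Pi.single J2 1 : Finset (Fin n) → ℝ) I)
    (fun I => add_nonneg (single_nonneg' _ _) (single_nonneg' _ _))
    (fun I => add_nonneg (single_nonneg' _ _) (single_nonneg' _ _))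
    (fun I hI => by
      show (Pi.single I1 1 : Finset (Fin n) → ℝ) I + (Pi.single I2 1 : Finset (Fin n) → ℝ) I = 0
      rw [single_zero' h1 hI, single_zero' h2 hI, add_zero])
    (fun I hI => by
      by_contra hk
      apply hI
      show (Pi.single J1 1 : Finset (Fin n) → ℝ) I + (Pi.single J2 1 : Finset (Fin n) → ℝ) I = 0
      rw [single_card' hJ1 hk, single_card' hJ2 hk, add_zero])
    (by simp only [add_smul, Finset.sum_add_distrib, sum_single_smul, h])
  simp only [add_mul, Finset.sum_add_distrib, sum_single_mul] at key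
  exact key

theorem opt_exch3 {n k : ℕ} {d : Finset (Fin n) → ℝ} {S : Finset (Finset (Fin n))}
    (hS : Opt k d S) {I1 I2 I3 J1 J2 J3 : Finset (Fin n)} (h1 : I1 ∈ S) (h2 : I2 ∈ S)
    (h3 : I3 ∈ S) (hJ1 : J1.card = k) (hJ2 : J2.card = k) (hJ3 : J3.card = k)
    (h : ind I1 + ind I2 + ind I3 = ind J1 + ind J2 + ind J3) :
    d J1 + d J2 + d J3 ≤ d I1 + d I2 + d I3 := by
  have key := hS.2
    (fun I => (Pi.single I1 1 : Finset (Fin n) → ℝ) I + (Pi.single I2 1 : Finset (Fin n) → ℝ) I +
      (Pi.single I3 1 : Finset (Fin n) → ℝ) I)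
    (fun I => (Pi.single J1 1 : Finset (Fin n) → ℝ) I + (Pi.single J2 1 : Finset (Fin n) → ℝ) I +
      (Pi.single J3 1 : Finset (Fin n) → ℝ) I)
    (fun I => add_nonneg (add_nonneg (single_nonneg' _ _) (single_nonneg' _ _)) (single_nonneg' _ _))
    (fun I => add_nonneg (add_nonneg (single_nonneg' _ _) (single_nonneg' _ _)) (single_nonneg' _ _))
    (fun I hI => by
      show (Pi.single I1 1 : Finset (Fin n) → ℝ) I + (Pi.single I2 1 : Finset (Fin n) → ℝ) I +
        (Pi.single I3 1 : Finset (Fin n) → ℝ) I = 0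
      rw [single_zero' h1 hI, single_zero' h2 hI, single_zero' h3 hI, add_zero, add_zero])
    (fun I hI => by
      by_contra hk
      apply hI
      show (Pi.single J1 1 : Finset (Fin n) → ℝ) I + (Pi.single J2 1 : Finset (Fin n) → ℝ) I +
        (Pi.single J3 1 : Finset (Fin n) → ℝ) I = 0
      rw [single_card' hJ1 hk, single_card' hJ2 hk, single_card' hJ3 hk, add_zero, add_zero])
    (by simp only [add_smul, Finset.sum_add_distrib, sum_single_smul, h])
  simp only [add_mul, Finset.sum_add_distrib, sum_single_mul] at key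
  exact key

/-- the vector of a pair -/
theorem ind_pair {n : ℕ} {u v : Fin n} (h : u ≠ v) :
    ind ({u, v} : Finset (Fin n)) = ind {u} + ind {v} := by
  funext i
  simp only [ind, Pi.add_apply, Finset.mem_insert, Finset.mem_singleton]
  by_cases h1 : i = u
  · subst h1
    simp [h]
  · by_cases h2 : i = v
    · subst h2
      simp [h1]
    · simp [h1, h2]

end Pool.Agent.Lib.HyS
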