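import Pool.Agent.Lib.HyS.CarA
import Pool.Agent.Lib.HyS.CarC

/-!
# HyS2, row Fac: restriction of an invariant triangulation to a face of the hypersimplex

PROOF IN WORDS. Let `Φ y` be the point with coordinate `y i` at `e i`, `1` on `Z` and `0` elsewhere
(an injective affine map; e.g. `Φ y = ∑ i, y i • Pi.single (e i) 1 + ind Z`, or with
`Function.extend e y (ind Z)`). `Φ` maps `hypersimplex k' m` into `hypersimplex k n`. New faces:
`{t | t.image Φ ∈ T.K.faces}` (classical decidability; or `t.map` with the embedding): nonempty and down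
closed because `image Φ` preserves inclusion and nonemptiness; `indep`: if `Φ ∘ v` is affinely
independent then so is `v` (`AffineIndependent.of_comp`); `inter`: `convexHull (Φ '' s) =
Φ '' convexHull s` (`AffineMap.image_convexHull` or similar), `Set.image_inter` and injectivity. Space:
`⊆`: if `Φ '' t` is a face, then its points are in `hypersimplex k n`, so the points of `t` are in
`hypersimplex k' m` (coordinates in `[0,1]`, sum `k - |Z| = k'`), which is convex. `⊇`: let
`y ∈ hypersimplex k' m` and `F` a carrier of `Φ y` (`car_exists`). A coordinate of `Φ y` equal to `1`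
forces all `I ∈ F` to contain it, a coordinate equal to `0` forces all `I ∈ F` to avoid it (positive
weights with sum one). So every `ind I`, `I ∈ F`, is `Φ (ind I')` with `I' = {i | e i ∈ I}`; let `t` be the
set of the `ind I'`; `Φ '' t = ind '' F` is a face, and `Φ y = ∑ w I • ind I` gives
`y = ∑ w I • ind I'`. Vertices: coordinates of `v` are coordinates of `Φ v`, a vertex of `T.K`.
Invariance: for `σ' ∈ G'` take `σ ∈ G` from `hG'`; `permute σ (Φ y) = Φ (permute σ' y)` (check the
coordinates `e i`, those in `Z`, and the others: `σ` maps the range of `e` onto itself, as `σ'` is a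
bijection, and `Z` onto `Z`). So `Φ '' (permute σ' '' t) = permute σ '' (Φ '' t)` is a face.
-/

namespace Pool.Agent.Lib.HyS

/-- the affine embedding of the smaller cube as a face -/
private noncomputable def phi {n m : ℕ} (e : Fin m ↪ Fin n) (Z : Finset (Fin n)) :
    (Fin m → ℝ) →ᵃ[ℝ] (Fin n → ℝ) where
  toFun := fun y => Function.extend e y (ind Z)
  linear := Function.ExtendByZero.linearMap ℝ e
  map_vadd' := by
    intro p v
    funext j
    by_cases h : ∃ i, e i = j
    · obtain ⟨i, rfl⟩ := h
      simp [Function.ExtendByZero.linearMap, e.injective.extend_apply]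
    · simp [Function.ExtendByZero.linearMap, Function.extend_apply' _ _ _ h]

private theorem phi_e {n m : ℕ} (e : Fin m ↪ Fin n) (Z : Finset (Fin n)) (y : Fin m → ℝ)
    (i : Fin m) : phi e Z y (e i) = y i := e.injective.extend_apply _ _ _

private theorem phi_ne {n m : ℕ} (e : Fin m ↪ Fin n) (Z : Finset (Fin n)) (y : Fin m → ℝ)
    (j : Fin n) (h : ¬ ∃ i, e i = j) : phi e Z y j = ind Z j := Function.extend_apply' _ _ _ h

private theorem phi_inj {n m : ℕ} (e : Fin m ↪ Fin n) (Z : Finset (Fin n)) :
    Function.Injective (phi e Z) := by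
  intro x y h
  funext i
  rw [← phi_e e Z x i, h, phi_e]

private theorem phi_sum {n m : ℕ} (e : Fin m ↪ Fin n) (Z : Finset (Fin n)) (hZ : ∀ i, e i ∉ Z)
    (y : Fin m → ℝ) : ∑ j, phi e Z y j = ∑ i, y i + Z.card := by
  classical
  have h1 : ∀ j, phi e Z y j = (if ∃ i, e i = j then phi e Z y j else 0) + ind Z j := by
    intro j
    by_cases h : ∃ i, e i = j
    · rw [if_pos h]
      obtain ⟨i, rfl⟩ := h
      rw [ind, if_neg (hZ i), add_zero]
    · rw [if_neg h, zero_add, phi_ne e Z y j h]
  rw [Finset.sum_congr rfl fun j _ => h1 j, Finset.sum_add_distrib]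
  congr 1
  · have h2 : ∑ j : Fin n, (if ∃ i, e i = j then phi e Z y j else 0) =
        ∑ j ∈ Finset.univ.map e, (if ∃ i, e i = j then phi e Z y j else 0) := by
      symm
      refine Finset.sum_subset (Finset.subset_univ _) fun j _ hj => ?_
      rw [if_neg]
      rintro ⟨i, hi⟩
      exact hj (Finset.mem_map.2 ⟨i, Finset.mem_univ _, hi⟩)
    rw [h2, Finset.sum_map]
    refine Finset.sum_congr rfl fun i _ => ?_
    rw [if_pos ⟨i, rfl⟩, phi_e]
  · simp [ind]

private theorem phi_hyper {k k' n m : ℕ} (e : Fin m ↪ Fin n) (Z : Finset (Fin n))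
    (hZ : ∀ i, e i ∉ Z) (hk : k' + Z.card = k) (y : Fin m → ℝ) :
    phi e Z y ∈ hypersimplex k n ↔ y ∈ hypersimplex k' m := by
  have hs := phi_sum e Z hZ y
  constructor
  · rintro ⟨h1, h2⟩
    refine ⟨fun i => ?_, ?_⟩
    · have := h1 (e i)
      rwa [phi_e] at this
    · rw [hs, ← hk] at h2
      push_cast at h2
      linarith
  · rintro ⟨h1, h2⟩
    refine ⟨fun j => ?_, ?_⟩
    · by_cases h : ∃ i, e i = j
      · obtain ⟨i, rfl⟩ := h
        rw [phi_e]
        exact h1 i
      · rw [phi_ne e Z y j h, ind]
        split_ifs <;> norm_num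
    · rw [hs, ← hk, h2]
      push_cast
      rfl

private theorem phi_hull {n m : ℕ} (e : Fin m ↪ Fin n) (Z : Finset (Fin n))
    (s : Set (Fin m → ℝ)) (x : Fin m → ℝ) :
    phi e Z x ∈ convexHull ℝ (phi e Z '' s) ↔ x ∈ convexHull ℝ s := by
  rw [← AffineMap.image_convexHull]
  exact (phi_inj e Z).mem_set_image

private theorem phi_perm {n m : ℕ} (e : Fin m ↪ Fin n) (Z : Finset (Fin n))
    (σ : Equiv.Perm (Fin n)) (σ' : Equiv.Perm (Fin m)) (h1 : Z.map σ.toEmbedding = Z)
    (h2 : ∀ i, σ (e i) = e (σ' i)) (y : Fin m → ℝ) :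
    permute σ (phi e Z y) = phi e Z (permute σ' y) := by
  funext j
  by_cases h : ∃ i, e i = j
  · obtain ⟨i, rfl⟩ := h
    have h3 : σ.symm (e i) = e (σ'.symm i) := by
      rw [Equiv.symm_apply_eq, h2, Equiv.apply_symm_apply]
    rw [phi_e]
    show phi e Z y (σ.symm (e i)) = y (σ'.symm i)
    rw [h3, phi_e]
  · have h3 : ¬ ∃ i, e i = σ.symm j := by
      rintro ⟨i, hi⟩
      refine h ⟨σ' i, ?_⟩
      rw [← h2, hi, Equiv.apply_symm_apply]
    rw [phi_ne e Z _ j h]
    show phi e Z y (σ.symm j) = ind Z j
    rw [phi_ne e Z _ _ h3]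
    have h4 : σ.symm j ∈ Z ↔ j ∈ Z := by
      rw [← Finset.mem_map_equiv, h1]
    simp only [ind, h4]

open Classical in
/-- the restricted complex -/
private noncomputable def fx {n m : ℕ} (K : Geometry.SimplicialComplex ℝ (Fin n → ℝ))
    (e : Fin m ↪ Fin n) (Z : Finset (Fin n)) : Geometry.SimplicialComplex ℝ (Fin m → ℝ) where
  faces := {t | t.image (phi e Z) ∈ K.faces}
  isRelLowerSet_faces := by
    intro a ha
    refine ⟨?_, fun b hb hb' => ?_⟩
    · have := (K.isRelLowerSet_faces ha).1
      exact Finset.image_nonempty.1 this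
    · exact (K.isRelLowerSet_faces ha).2 (Finset.image_subset_image hb) (hb'.image _)
  indep := by
    intro s hs
    have h1 := K.indep hs
    let f : s ↪ (s.image (phi e Z) : Finset (Fin n → ℝ)) :=
      ⟨fun x => ⟨phi e Z x, Finset.mem_image_of_mem _ x.2⟩,
        fun x y hxy => Subtype.ext (phi_inj e Z (congrArg Subtype.val hxy))⟩
    have h2 := h1.comp_embedding f
    exact AffineIndependent.of_comp (phi e Z) h2
  inter_subset_convexHull := by
    intro s t hs ht x hx
    have h1 := K.inter_subset_convexHull hs ht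
    have h2 : phi e Z x ∈ convexHull ℝ (((s.image (phi e Z) : Finset (Fin n → ℝ)) : Set (Fin n → ℝ))) ∩
        convexHull ℝ (((t.image (phi e Z) : Finset (Fin n → ℝ)) : Set (Fin n → ℝ))) := by
      rw [Finset.coe_image, Finset.coe_image]
      exact ⟨(phi_hull e Z _ x).2 hx.1, (phi_hull e Z _ x).2 hx.2⟩
    have h3 := h1 h2
    rw [Finset.coe_image, Finset.coe_image, ← Set.image_inter (phi_inj e Z)] at h3
    exact (phi_hull e Z _ x).1 h3

theorem face_tri {k k' n m : ℕ} (T : LatticeTriangulation k n)
    {G : Subgroup (Equiv.Perm (Fin n))} (hT : Invariant G T) (e : Fin m ↪ Fin n)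
    (Z : Finset (Fin n)) (hZ : ∀ i, e i ∉ Z) (hk : k' + Z.card = k)
    (G' : Subgroup (Equiv.Perm (Fin m)))
    (hG' : ∀ σ' ∈ G', ∃ σ ∈ G, Z.map σ.toEmbedding = Z ∧ ∀ i, σ (e i) = e (σ' i)) :
    ∃ T' : LatticeTriangulation k' m, Invariant G' T' := by
  classical
  have hfc : ∀ t : Finset (Fin m → ℝ), t ∈ (fx T.K e Z).faces ↔ t.image (phi e Z) ∈ T.K.faces := by
    intro t
    show t.image (phi e Z) ∈ T.K.faces ↔ _
    rw [iff_iff_eq]
  have hsp : (fx T.K e Z).space = hypersimplex k' m := by
    ext x
    rw [← phi_hyper e Z hZ hk x]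
    constructor
    · intro hx
      rw [Geometry.SimplicialComplex.mem_space_iff] at hx
      obtain ⟨s, hs, hx⟩ := hx
      rw [← T.space_eq, Geometry.SimplicialComplex.mem_space_iff]
      refine ⟨s.image (phi e Z), (hfc s).1 hs, ?_⟩
      rw [Finset.coe_image]
      exact (phi_hull e Z _ x).2 hx
    · intro hx
      obtain ⟨F, hF⟩ := car_exists T hx
      obtain ⟨s, hs, hsF⟩ := hF.face
      obtain ⟨w, hw, hw1, hwp⟩ := hF.wt
      have hcoord : ∀ j, ∑ I ∈ F, w I * ind I j = phi e Z x j := by
        intro j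
        rw [← hwp, Finset.sum_apply]
        rfl
      have hind : ∀ I ∈ F, phi e Z (fun i => ind I (e i)) = ind I := by
        intro I hI
        funext j
        by_cases h : ∃ i, e i = j
        · obtain ⟨i, rfl⟩ := h
          rw [phi_e]
        · rw [phi_ne e Z _ j h]
          have h1 := hcoord j
          rw [phi_ne e Z _ j h] at h1
          by_cases hj : j ∈ Z
          · rw [ind, if_pos hj] at h1 ⊢
            have h2 : ∑ I ∈ F, w I * (1 - ind I j) = 0 := by
              simp only [mul_sub, mul_one, Finset.sum_sub_distrib]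
              rw [hw1, h1, sub_self]
            rw [Finset.sum_eq_zero_iff_of_nonneg] at h2
            · have h3 := h2 I hI
              rcases mul_eq_zero.1 h3 with h4 | h4
              · exact absurd h4 (hw I hI).ne'
              · linarith
            · intro I' hI'
              refine mul_nonneg (hw I' hI').le ?_
              rw [ind]
              split_ifs <;> norm_num
          · rw [ind, if_neg hj] at h1 ⊢
            rw [Finset.sum_eq_zero_iff_of_nonneg] at h1
            · rcases mul_eq_zero.1 (h1 I hI) with h4 | h4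
              · exact absurd h4 (hw I hI).ne'
              · exact h4.symm
            · intro I' hI'
              refine mul_nonneg (hw I' hI').le ?_
              rw [ind]
              split_ifs <;> norm_num
      have himg : (s.image fun v : Fin n → ℝ => fun i => v (e i)).image (phi e Z) = s := by
        rw [Finset.image_image]
        have h1 : ∀ v ∈ s, (phi e Z ∘ fun v : Fin n → ℝ => fun i => v (e i)) v = v := by
          intro v hv
          have h2 : v ∈ (s : Set (Fin n → ℝ)) := hv
          rw [hsF] at h2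
          obtain ⟨I, hI, rfl⟩ := h2
          exact hind I hI
        rw [Finset.image_congr (g := id) (fun v hv => h1 v hv), Finset.image_id]
      rw [Geometry.SimplicialComplex.mem_space_iff]
      refine ⟨s.image fun v : Fin n → ℝ => fun i => v (e i), (hfc _).2 (by rw [himg]; exact hs), ?_⟩
      rw [← phi_hull e Z, ← Finset.coe_image, himg, hsF, ← hwp]
      exact (convex_convexHull ℝ _).sum_mem (fun I hI => (hw I hI).le) hw1
        (fun I hI => subset_convexHull ℝ _ ⟨I, hI, rfl⟩)
  refine ⟨⟨fx T.K e Z, hsp, ?_⟩, ?_⟩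
  · intro v hv i
    have h1 : ({v} : Finset (Fin m → ℝ)) ∈ (fx T.K e Z).faces := hv
    rw [hfc, Finset.image_singleton] at h1
    obtain ⟨z, hz⟩ := T.lattice (phi e Z v) h1 (e i)
    refine ⟨z, ?_⟩
    rw [← hz, phi_e]
  · intro σ' hσ' s hs
    obtain ⟨σ, hσ, h1, h2⟩ := hG' σ' hσ'
    obtain ⟨t, ht, hts⟩ := hT σ hσ _ ((hfc s).1 hs)
    refine ⟨s.image (permute σ'), (hfc _).2 ?_, by rw [Finset.coe_image]⟩
    have h3 : (s.image (permute σ')).image (phi e Z) = t := by
      apply Finset.coe_injective
      rw [hts, Finset.coe_image, Finset.coe_image, Finset.coe_image, Set.image_image,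
        Set.image_image]
      exact Set.image_congr fun x _ => (phi_perm e Z σ σ' h1 h2 x).symm
    rw [h3]
    exact ht

end Pool.Agent.Lib.HyS
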