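import Pool.Agent.Lib.HyS2.Fac

/-!
# HyS2: the group induced on a set
-/

namespace Pool.Agent.Lib.HyS

/-- The group of permutations of the set `O` induced by the elements of `G` that map `O` onto itself
and `Z` onto itself. -/
def induced {n : ℕ} (G : Subgroup (Equiv.Perm (Fin n))) (O Z : Finset (Fin n)) :
    Subgroup (Equiv.Perm O) where
  carrier := {τ | ∃ σ ∈ G, Z.map σ.toEmbedding = Z ∧ ∀ x : O, σ x = τ x}
  mul_mem' := by
    rintro τ τ' ⟨σ, hσ, hZ, h⟩ ⟨σ', hσ', hZ', h'⟩
    refine ⟨σ * σ', G.mul_mem hσ hσ', ?_, ?_⟩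
    · have : Z.map (σ * σ').toEmbedding = (Z.map σ'.toEmbedding).map σ.toEmbedding := by
        rw [Finset.map_map]
        rfl
      rw [this, hZ', hZ]
    · intro x
      rw [Equiv.Perm.mul_apply, h' x, h (τ' x)]
      rfl
  one_mem' := by
    refine ⟨1, G.one_mem, ?_, fun x => rfl⟩
    ext i
    rw [Finset.mem_map_equiv]
    exact Iff.rfl
  inv_mem' := by
    rintro τ ⟨σ, hσ, hZ, h⟩
    refine ⟨σ⁻¹, G.inv_mem hσ, ?_, ?_⟩
    · ext i
      rw [Finset.mem_map_equiv]
      have h1 : (Equiv.symm σ⁻¹ : Equiv.Perm (Fin n)) i = σ i := rfl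
      rw [h1]
      have h2 := Finset.mem_map_equiv (f := σ) (s := Z) (b := σ i)
      rw [Equiv.symm_apply_apply, hZ] at h2
      exact h2
    · intro x
      rw [Equiv.Perm.inv_eq_iff_eq, h (τ⁻¹ x)]
      simp

/-- The restriction to a face, in terms of the induced group. -/
theorem induced_tri {k n m : ℕ} (T : LatticeTriangulation k n)
    {G : Subgroup (Equiv.Perm (Fin n))} (hT : Invariant G T) (O Z : Finset (Fin n))
    (hOZ : Disjoint O Z) (hZ : Z.card ≤ k) (ε : Fin m ≃ O) :
    ∃ T' : LatticeTriangulation (k - Z.card) m,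
      Invariant ((induced G O Z).comap (ε.permCongrHom.toMonoidHom)) T' := by
  refine face_tri T hT (ε.toEmbedding.trans (Function.Embedding.subtype _)) Z ?_ (by omega) _ ?_
  · intro i
    exact Finset.disjoint_left.1 hOZ (ε i).2
  · intro σ' hσ'
    obtain ⟨σ, hσ, hZ', h⟩ := hσ'
    refine ⟨σ, hσ, hZ', ?_⟩
    intro i
    have h1 := h (ε i)
    simp only [Function.Embedding.trans_apply, Equiv.coe_toEmbedding,
      Function.Embedding.subtype_apply]
    rw [h1]
    simp

end Pool.Agent.Lib.HyS
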