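import Pool.Agent.Lib.HyS2.Defs2

/-!
# HyS2, row Ncy: the necessary condition for cyclic groups

PROOF IN WORDS. Write `L v` for `Function.minimalPeriod g v` (positive). For all `x, y`: `σ = g ^ (L x)`
and `τ = g ^ (2 * L x)` are powers of `g` that fix `x`; by `hloc` `σ y = y`, `τ y = y` or `σ y = τ y`
(which gives `y = σ y`); in all cases `L y` divides `2 * L x`
(`Function.IsPeriodicPt.minimalPeriod_dvd`). If `n = 0` take `c = 0`. Otherwise let `c` be the minimum of
all `L x`; for every `y`: `L y ∣ 2 c` and `L y ≥ c`, so `L y = c` or `L y = 2 c` (the cofactor is `1` or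
`2`).
-/

namespace Pool.Agent.Lib.HyS

theorem cyclic_nec {n : ℕ} (g : Equiv.Perm (Fin n))
    (hloc : ∀ x y : Fin n, ∀ σ ∈ Subgroup.zpowers g, ∀ τ ∈ Subgroup.zpowers g,
      σ x = x → τ x = x → (σ y = y ∨ τ y = y ∨ σ y = τ y)) :
    ∃ c : ℕ, ∀ v, Function.minimalPeriod g v = c ∨ Function.minimalPeriod g v = 2 * c := by
  have hper : ∀ v, 0 < Function.minimalPeriod g v := by
    intro v
    apply Function.IsPeriodicPt.minimalPeriod_pos (orderOf_pos g)
    show g^[orderOf g] v = v
    rw [Equiv.Perm.iterate_eq_pow, pow_orderOf_eq_one]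
    rfl
  have hdvd : ∀ x y, Function.minimalPeriod g y ∣ 2 * Function.minimalPeriod g x := by
    intro x y
    have hx : (g ^ Function.minimalPeriod g x) x = x := by
      rw [← Equiv.Perm.iterate_eq_pow]
      exact Function.iterate_minimalPeriod
    have hx2 : (g ^ (2 * Function.minimalPeriod g x)) x = x := by
      rw [two_mul, pow_add, Equiv.Perm.mul_apply, hx, hx]
    have hp : ∀ m : ℕ, (g ^ m) y = y → Function.minimalPeriod g y ∣ m := by
      intro m hm
      apply Function.IsPeriodicPt.minimalPeriod_dvd
      show g^[m] y = y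
      rw [Equiv.Perm.iterate_eq_pow]
      exact hm
    rcases hloc x y _ (Subgroup.npow_mem_zpowers g (Function.minimalPeriod g x)) _
      (Subgroup.npow_mem_zpowers g (2 * Function.minimalPeriod g x)) hx hx2 with h | h | h
    · exact (hp _ h).mul_left 2
    · exact hp _ h
    · rw [two_mul, pow_add, Equiv.Perm.mul_apply] at h
      exact (hp _ ((g ^ Function.minimalPeriod g x).injective h).symm).mul_left 2
  rcases isEmpty_or_nonempty (Fin n) with he | he
  · exact ⟨0, fun v => isEmptyElim v⟩
  · obtain ⟨x0, hx0⟩ := Finite.exists_min (fun v => Function.minimalPeriod g v)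
    refine ⟨Function.minimalPeriod g x0, fun v => ?_⟩
    obtain ⟨k, hk⟩ := hdvd x0 v
    have h1 := hx0 v
    have h2 := hper x0
    rcases Nat.lt_or_ge k 3 with h3 | h3
    · interval_cases k
      · omega
      · omega
      · omega
    · exfalso
      have h4 : Function.minimalPeriod g v * 3 ≤ Function.minimalPeriod g v * k := Nat.mul_le_mul_left _ h3
      omega

end Pool.Agent.Lib.HyS
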