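import Pool.Agent.Lib.HyS2.Defs2
import Pool.Agent.Lib.HyS.Alc
import Pool.Agent.Lib.HyS.CarA

/-!
# HyS2, row RgA: optimal representations exist

PROOF IN WORDS. Let `P` be the set of all `a : Finset (Fin n) → ℝ` with `a I ≥ 0`, `a I = 0` if
`I.card ≠ k`, `∑ a I = 1`, `∑ a I • ind I = p`. `P` is nonempty: take a carrier of `p` in the alcoved
triangulation (`alcoved_exists`, `car_exists`), with its weights extended by zero. `P` is closed and
bounded (`0 ≤ a I ≤ 1`) in a finite dimensional space, so compact, and the continuous function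
`a ↦ ∑ a I * d I` has a maximum on `P` (`IsCompact.exists_isMaxOn`). For `k = 0` nothing special.
Let `a` be a maximum point and `S = {I | a I ≠ 0}`. `S` is optimal: let `a'` be supported on `S`, `b`
supported on `k`-sets, both nonnegative, with `∑ a' I • ind I = ∑ b I • ind I`. If `k > 0`, then
`∑ a' I = ∑ b I` (sum of all coordinates is `k` times the total weight, both on `k`-sets). (We assume
`0 < k`.) Choose `η > 0` with `η * a' I ≤ a I` for all `I` (finitely many `I`, `a I > 0` where
`a' I ≠ 0`). Then `a + η • (b - a')` is in `P`, so `∑ (a + η (b - a')) d ≤ ∑ a d`, hence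
`∑ b d ≤ ∑ a' d`.
-/

namespace Pool.Agent.Lib.HyS

private theorem rga_sum {n k : ℕ} (c : Finset (Fin n) → ℝ) (hc : ∀ I, c I ≠ 0 → I.card = k) :
    ∑ i, (∑ I, c I • ind I) i = (∑ I, c I) * k := by
  simp only [Finset.sum_apply, Pi.smul_apply, smul_eq_mul]
  rw [Finset.sum_comm, Finset.sum_mul]
  refine Finset.sum_congr rfl fun I _ => ?_
  rw [← Finset.mul_sum]
  have h1 : ∑ i, ind I i = (I.card : ℝ) := by
    unfold ind
    rw [Finset.sum_ite_mem, Finset.univ_inter, Finset.sum_const, nsmul_eq_mul, mul_one]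
  rw [h1]
  by_cases h : c I = 0
  · rw [h, zero_mul, zero_mul]
  · rw [hc I h]

private def rgaP {n : ℕ} (k : ℕ) (p : Fin n → ℝ) : Set (Finset (Fin n) → ℝ) :=
  {a | ∀ I, 0 ≤ a I} ∩ ({a | ∀ I, I.card ≠ k → a I = 0} ∩ ({a | ∑ I, a I = 1} ∩ {a | ∑ I, a I • ind I = p}))

private theorem rga_closed {n : ℕ} (k : ℕ) (p : Fin n → ℝ) : IsClosed (rgaP k p) := by
  have h1 : IsClosed {a : Finset (Fin n) → ℝ | ∀ I, 0 ≤ a I} := by
    simp only [Set.ofPred_forall]
    exact isClosed_iInter fun I => isClosed_le continuous_const (continuous_apply I)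
  have h2 : IsClosed {a : Finset (Fin n) → ℝ | ∀ I : Finset (Fin n), I.card ≠ k → a I = 0} := by
    simp only [Set.ofPred_forall]
    exact isClosed_iInter fun I => isClosed_iInter fun _ => isClosed_eq (continuous_apply I) continuous_const
  have h3 : IsClosed {a : Finset (Fin n) → ℝ | ∑ I, a I = 1} :=
    isClosed_eq (continuous_finsetSum _ fun I _ => continuous_apply I) continuous_const
  have h4 : IsClosed {a : Finset (Fin n) → ℝ | ∑ I, a I • ind I = p} :=
    isClosed_eq (continuous_finsetSum _ fun I _ => (continuous_apply I).smul continuous_const) continuous_const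
  exact h1.inter (h2.inter (h3.inter h4))

private theorem rga_compact {n : ℕ} (k : ℕ) (p : Fin n → ℝ) : IsCompact (rgaP k p) := by
  refine IsCompact.of_isClosed_subset (isCompact_Icc (a := (0 : Finset (Fin n) → ℝ)) (b := 1)) (rga_closed k p) ?_
  rintro a ⟨h1, -, h3, -⟩
  refine ⟨fun I => h1 I, fun I => ?_⟩
  rw [Pi.one_apply, ← h3]
  exact Finset.single_le_sum (f := a) (fun J _ => h1 J) (Finset.mem_univ I)

private theorem rga_nonempty {k n : ℕ} {p : Fin n → ℝ} (hp : p ∈ hypersimplex k n) : (rgaP k p).Nonempty := by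
  classical
  obtain ⟨T, -⟩ := alcoved_exists k n
  obtain ⟨F, hF⟩ := car_exists T hp
  obtain ⟨w, h0, h1, h2⟩ := hF.wt
  refine ⟨fun I => if I ∈ F then w I else 0, fun I => ?_, fun I hI => ?_, ?_, ?_⟩
  · show 0 ≤ if I ∈ F then w I else 0
    split_ifs with h
    · exact (h0 I h).le
    · exact le_rfl
  · exact if_neg fun h => hI (hF.card I h)
  · show ∑ I, (if I ∈ F then w I else 0) = 1
    rw [Finset.sum_ite_mem, Finset.univ_inter, h1]
  · show ∑ I, (if I ∈ F then w I else 0) • ind I = p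
    rw [← h2]
    have h3 : ∀ I, (if I ∈ F then w I else 0) • ind I = if I ∈ F then w I • ind I else 0 := by
      intro I
      split_ifs
      · rfl
      · rw [zero_smul]
    simp only [h3]
    rw [Finset.sum_ite_mem, Finset.univ_inter]

open Classical in
theorem exists_optimal {k n : ℕ} (hk : 0 < k) (d : Finset (Fin n) → ℝ) {p : Fin n → ℝ}
    (hp : p ∈ hypersimplex k n) :
    ∃ a : Finset (Fin n) → ℝ, (∀ I, 0 ≤ a I) ∧ (∀ I, a I ≠ 0 → I.card = k) ∧ ∑ I, a I = 1 ∧
      ∑ I, a I • ind I = p ∧ Opt k d (Finset.univ.filter (fun I => a I ≠ 0)) := by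
  obtain ⟨a, ⟨ha0, hak, ha1, hap⟩, hmax⟩ := (rga_compact k p).exists_isMaxOn (rga_nonempty hp)
    (f := fun a => ∑ I, a I * d I) (continuous_finsetSum _ fun I _ => (continuous_apply I).mul continuous_const).continuousOn
  have ha0' : ∀ I, 0 ≤ a I := ha0
  have hak' : ∀ I : Finset (Fin n), I.card ≠ k → a I = 0 := hak
  have ha1' : ∑ I, a I = 1 := ha1
  have hap' : ∑ I, a I • ind I = p := hap
  have hcard : ∀ I, a I ≠ 0 → I.card = k := fun I h => by
    by_contra hc
    exact h (hak' I hc)
  refine ⟨a, ha0', hcard, ha1', hap', fun I hI => hcard I (Finset.mem_filter.1 hI).2, ?_⟩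
  intro a' b ha'0 hb0 ha'S hbk hab
  have ha'z : ∀ I, a I = 0 → a' I = 0 := fun I h => ha'S I fun h1 => (Finset.mem_filter.1 h1).2 h
  have ha'k : ∀ I, a' I ≠ 0 → I.card = k := fun I h => hcard I fun h1 => h (ha'z I h1)
  have hsum : ∑ I, a' I = ∑ I, b I := by
    have h1 := rga_sum (k := k) a' ha'k
    have h2 := rga_sum (k := k) b hbk
    rw [hab, h2] at h1
    have hk' : (k : ℝ) ≠ 0 := Nat.cast_ne_zero.2 hk.ne'
    exact (mul_right_cancel₀ hk' h1).symm
  have hS : (Finset.univ.filter (fun I => a I ≠ 0)).Nonempty := by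
    by_contra hne
    rw [Finset.not_nonempty_iff_eq_empty, Finset.filter_eq_empty_iff] at hne
    have h1 : ∑ I, a I = 0 := Finset.sum_eq_zero fun I _ => not_not.1 (hne (Finset.mem_univ I))
    rw [ha1'] at h1
    exact one_ne_zero h1
  obtain ⟨η, hη, hηa⟩ : ∃ η : ℝ, 0 < η ∧ ∀ I, η * a' I ≤ a I := by
    obtain ⟨J, hJ, hJm⟩ := Finset.exists_min_image _ a hS
    have hJ0 : 0 < a J := lt_of_le_of_ne (ha0' J) (Ne.symm (Finset.mem_filter.1 hJ).2)
    have hM : 0 < ∑ I, a' I + 1 := by
      have := Finset.sum_nonneg fun I (_ : I ∈ (Finset.univ : Finset (Finset (Fin n)))) => ha'0 I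
      linarith
    refine ⟨a J / (∑ I, a' I + 1), div_pos hJ0 hM, fun I => ?_⟩
    by_cases hI : a I = 0
    · rw [ha'z I hI, hI, mul_zero]
    · have h1 := hJm I (Finset.mem_filter.2 ⟨Finset.mem_univ I, hI⟩)
      have h2 : a' I ≤ ∑ I, a' I + 1 := by
        have := Finset.single_le_sum (f := a') (fun J _ => ha'0 J) (Finset.mem_univ I)
        linarith
      refine le_trans ?_ h1
      rw [div_mul_eq_mul_div, div_le_iff₀ hM]
      exact mul_le_mul_of_nonneg_left h2 hJ0.le
  have hc : (fun I => a I + η * (b I - a' I)) ∈ rgaP k p := by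
    refine ⟨fun I => ?_, fun I hI => ?_, ?_, ?_⟩
    · show 0 ≤ a I + η * (b I - a' I)
      have h1 := hηa I
      have h2 := mul_nonneg hη.le (hb0 I)
      linarith
    · show a I + η * (b I - a' I) = 0
      have h1 : b I = 0 := by
        by_contra h
        exact hI (hbk I h)
      rw [hak' I hI, h1, ha'z I (hak' I hI)]
      ring
    · show ∑ I, (a I + η * (b I - a' I)) = 1
      rw [Finset.sum_add_distrib, ← Finset.mul_sum, Finset.sum_sub_distrib, ha1', hsum, sub_self, mul_zero, add_zero]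
    · show ∑ I, (a I + η * (b I - a' I)) • ind I = p
      have h1 : ∀ I, (a I + η * (b I - a' I)) • (ind I : Fin n → ℝ) = a I • ind I + η • (b I • ind I - a' I • ind I) := by
        intro I
        rw [add_smul, mul_smul, sub_smul]
      simp only [h1]
      rw [Finset.sum_add_distrib, ← Finset.smul_sum, Finset.sum_sub_distrib, hap', hab, sub_self, smul_zero, add_zero]
  have h1 := hmax hc
  have h2 : ∑ I, (a I + η * (b I - a' I)) * d I ≤ ∑ I, a I * d I := h1
  have h3 : ∑ I, (a I + η * (b I - a' I)) * d I = ∑ I, a I * d I + η * (∑ I, b I * d I - ∑ I, a' I * d I) := by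
    rw [← Finset.sum_sub_distrib, Finset.mul_sum, ← Finset.sum_add_distrib]
    refine Finset.sum_congr rfl fun I _ => ?_
    ring
  rw [h3] at h2
  have h4 : η * (∑ I, b I * d I - ∑ I, a' I * d I) ≤ 0 := by linarith
  have h5 := nonpos_of_mul_nonpos_right h4 hη
  linarith

end Pool.Agent.Lib.HyS
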