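import Pool.Agent.Lib.HyS2.RgA
import Pool.Agent.Lib.HyS.CarC

/-!
# HyS2, row RgB: the regular triangulation of a height function all of whose optimal sets are
independent

PROOF IN WORDS. Faces: the nonempty finsets `s` of points with `(s : Set _) = ind '' S` for some `S`
with `Opt k d S`. Down closed: a subset of an optimal set is optimal, and a nonempty subset of
`ind '' S` is `ind '' S'` (`S' = S.filter (ind I ∈ t)`). `indep`: if `∑ c_v v = 0`, `∑ c_v = 0` over
`v ∈ s`, then `c (ind I)` (extended by zero) is a `Dep` on `S`, so zero by `hind`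
(`affineIndependent_iff`; `ind_injective` is in `CarB`). `inter`: let `p` be in the convex hulls of
`ind '' S` and `ind '' S'`; weights `a` on `S`, `b` on `S'` (nonnegative, sum one; extended by zero).
`Opt` both ways gives `∑ a d = ∑ b d`. Let `U = {I | a I ≠ 0 ∨ b I ≠ 0}`. `U` is optimal: let `a'` be
supported on `U` and `b'` on `k`-sets with the same vector sum (all nonnegative); choose `η > 0`
with `η a' ≤ (a + b) / 2` everywhere; then `(a + b) / 2 + η (b' - a')` is nonnegative, supported on
`k`-sets and has the same vector sum as `a`, so by `Opt` of `S`: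
`∑ ((a + b)/2 + η (b' - a')) d ≤ ∑ a d = ∑ ((a+b)/2) d`, hence `∑ b' d ≤ ∑ a' d`. Now `a - b` is a
`Dep` on `U`, so `a = b` by `hind`; so the support of `a` is in `S ∩ S'`, and `p` is in the convex hull
of `ind '' (S ∩ S') ⊆ s ∩ t`. Space: `⊆`: `ind I` with `I.card = k` lies in the convex set
`hypersimplex k n`; `⊇`: `exists_optimal`. Vertices: coordinates of `ind I` are `0` or `1`.
Invariance: for `σ ∈ G` and `Opt k d S` also `Opt k d (S.image (I ↦ I.map σ))` because
`d (I.map σ) = d I` (transport `a` and `b` with `I ↦ I.map σ`, `permute σ` of both vector sums,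
`permute_ind`), and `permute σ '' (ind '' S) = ind '' (S.image ...)`.
-/

namespace Pool.Agent.Lib.HyS

private theorem rgb_mono {k n : ℕ} {d : Finset (Fin n) → ℝ} {S S' : Finset (Finset (Fin n))}
    (h : Opt k d S) (hS : S' ⊆ S) : Opt k d S' :=
  ⟨fun I hI => h.1 I (hS hI), fun a b ha hb hs hc he =>
    h.2 a b ha hb (fun I hI => hs I fun h1 => hI (hS h1)) hc he⟩

private theorem rgb_convex (k n : ℕ) : Convex ℝ (hypersimplex k n) := by
  intro x hx y hy a b ha hb hab
  refine ⟨fun i => ?_, ?_⟩
  · have h1 := hx.1 i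
    have h2 := hy.1 i
    simp only [Pi.add_apply, Pi.smul_apply, smul_eq_mul]
    constructor
    · exact add_nonneg (mul_nonneg ha h1.1) (mul_nonneg hb h2.1)
    · nlinarith [mul_le_mul_of_nonneg_left h1.2 ha, mul_le_mul_of_nonneg_left h2.2 hb]
  · simp only [Pi.add_apply, Pi.smul_apply, smul_eq_mul, Finset.sum_add_distrib, ← Finset.mul_sum]
    rw [hx.2, hy.2, ← add_mul, hab, one_mul]

private theorem rgb_ind_mem {k n : ℕ} {I : Finset (Fin n)} (hI : I.card = k) :
    ind I ∈ hypersimplex k n := by
  classical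
  refine ⟨fun i => ?_, ?_⟩
  · unfold ind
    split_ifs <;> norm_num
  · unfold ind
    rw [Finset.sum_ite_mem, Finset.univ_inter, Finset.sum_const, nsmul_eq_mul, mul_one, hI]

open Classical in
/-- A point of the convex hull of the vectors of `S` as a combination with weights on `S`. -/
private theorem rgb_hull {n : ℕ} {S : Finset (Finset (Fin n))} {p : Fin n → ℝ}
    (hp : p ∈ convexHull ℝ ((S.image ind : Finset (Fin n → ℝ)) : Set (Fin n → ℝ))) :
    ∃ a : Finset (Fin n) → ℝ, (∀ I, 0 ≤ a I) ∧ (∀ I, I ∉ S → a I = 0) ∧ ∑ I, a I = 1 ∧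
      ∑ I, a I • ind I = p := by
  obtain ⟨w, h0, h1, h2⟩ := Finset.mem_convexHull'.1 hp
  rw [Finset.sum_image fun I _ J _ h => ind_injective n h] at h1 h2
  refine ⟨fun I => if I ∈ S then w (ind I) else 0, fun I => ?_, fun I hI => if_neg hI, ?_, ?_⟩
  · show 0 ≤ (if I ∈ S then w (ind I) else 0)
    split_ifs with h
    · exact h0 _ (Finset.mem_image_of_mem _ h)
    · exact le_refl _
  · rw [Finset.sum_ite_mem, Finset.univ_inter]
    exact h1
  · rw [← h2, ← Finset.sum_subset (Finset.subset_univ S)]
    · exact Finset.sum_congr rfl fun I hI => by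
        show (if I ∈ S then w (ind I) else 0) • ind I = _
        rw [if_pos hI]
    · intro I _ hI
      show (if I ∈ S then w (ind I) else 0) • ind I = 0
      rw [if_neg hI, zero_smul]

open Classical in
private theorem rgb_hull' {n : ℕ} {S : Finset (Finset (Fin n))} {p : Fin n → ℝ}
    {a : Finset (Fin n) → ℝ} (h0 : ∀ I, 0 ≤ a I) (hS : ∀ I, I ∉ S → a I = 0) (h1 : ∑ I, a I = 1)
    (h2 : ∑ I, a I • ind I = p) :
    p ∈ convexHull ℝ ((S.image ind : Finset (Fin n → ℝ)) : Set (Fin n → ℝ)) := by
  have h1' : ∑ I ∈ S, a I = 1 := by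
    rw [← h1]
    exact Finset.sum_subset (Finset.subset_univ S) fun I _ hI => hS I hI
  have h2' : ∑ I ∈ S, a I • ind I = p := by
    rw [← h2]
    exact Finset.sum_subset (Finset.subset_univ S) fun I _ hI => by rw [hS I hI, zero_smul]
  rw [← h2']
  exact (convex_convexHull ℝ _).sum_mem (fun I _ => h0 I) h1' fun I hI =>
    subset_convexHull ℝ _ (Finset.mem_coe.2 (Finset.mem_image_of_mem _ hI))

private theorem rgb_eta {ι : Type} [Finite ι] [Nonempty ι] (x y : ι → ℝ) (hx : ∀ i, 0 ≤ x i)
    (hy : ∀ i, 0 ≤ y i) (h : ∀ i, x i ≠ 0 → y i ≠ 0) : ∃ η : ℝ, 0 < η ∧ ∀ i, η * x i ≤ y i := by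
  have h1 : ∀ i, ∃ η : ℝ, 0 < η ∧ η * x i ≤ y i := by
    intro i
    by_cases hi : x i = 0
    · exact ⟨1, one_pos, by rw [hi, mul_zero]; exact hy i⟩
    · have hxi : 0 < x i := lt_of_le_of_ne (hx i) (Ne.symm hi)
      have hyi : 0 < y i := lt_of_le_of_ne (hy i) (Ne.symm (h i hi))
      exact ⟨y i / x i, div_pos hyi hxi, by rw [div_mul_cancel₀ _ hi]⟩
  choose e he1 he2 using h1
  obtain ⟨i0, hi0⟩ := Finite.exists_min e
  exact ⟨e i0, he1 i0, fun i => (mul_le_mul_of_nonneg_right (hi0 i) (hx i)).trans (he2 i)⟩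

/-- the vector sum is linear -/
private theorem rgb_lin {n : ℕ} (a b a' b' : Finset (Fin n) → ℝ) (η : ℝ) :
    ∑ I, ((a I + b I) / 2 + η * (b' I - a' I)) • ind I =
      (1 / 2 : ℝ) • (∑ I, a I • ind I + ∑ I, b I • ind I) +
        η • (∑ I, b' I • ind I - ∑ I, a' I • ind I) := by
  rw [← Finset.sum_add_distrib, ← Finset.sum_sub_distrib, Finset.smul_sum, Finset.smul_sum,
    ← Finset.sum_add_distrib]
  refine Finset.sum_congr rfl fun I _ => ?_
  rw [← add_smul, ← sub_smul, smul_smul, smul_smul, ← add_smul]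
  congr 1
  ring

private theorem rgb_lin' {n : ℕ} (d a b a' b' : Finset (Fin n) → ℝ) (η : ℝ) :
    ∑ I, ((a I + b I) / 2 + η * (b' I - a' I)) * d I =
      (1 / 2 : ℝ) * (∑ I, a I * d I + ∑ I, b I * d I) +
        η * (∑ I, b' I * d I - ∑ I, a' I * d I) := by
  rw [← Finset.sum_add_distrib, ← Finset.sum_sub_distrib, Finset.mul_sum, Finset.mul_sum,
    ← Finset.sum_add_distrib]
  refine Finset.sum_congr rfl fun I _ => ?_
  ring

/-- Two optimal representations of a point are equal. -/
private theorem rgb_unique {k n : ℕ} {d : Finset (Fin n) → ℝ}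
    (hind : ∀ S, Opt k d S → ∀ c, Dep S c → ∀ I, c I = 0) {S S' : Finset (Finset (Fin n))}
    (hS : Opt k d S) (hS' : Opt k d S') {a b : Finset (Fin n) → ℝ} (ha : ∀ I, 0 ≤ a I)
    (hb : ∀ I, 0 ≤ b I) (haS : ∀ I, I ∉ S → a I = 0) (hbS : ∀ I, I ∉ S' → b I = 0)
    (hab : ∑ I, a I • ind I = ∑ I, b I • ind I) : ∀ I, a I = b I := by
  classical
  have hak : ∀ I, a I ≠ 0 → I.card = k := fun I hI => hS.1 I (by by_contra h; exact hI (haS I h))
  have hbk : ∀ I, b I ≠ 0 → I.card = k := fun I hI => hS'.1 I (by by_contra h; exact hI (hbS I h))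
  have h1 : ∑ I, b I * d I ≤ ∑ I, a I * d I := hS.2 a b ha hb haS hbk hab
  have h2 : ∑ I, a I * d I ≤ ∑ I, b I * d I := hS'.2 b a hb ha hbS hak hab.symm
  have h3 : ∑ I, a I * d I = ∑ I, b I * d I := le_antisymm h2 h1
  have hU : Opt k d (Finset.univ.filter fun I => a I ≠ 0 ∨ b I ≠ 0) := by
    refine ⟨fun I hI => ?_, fun a' b' ha' hb' hs hc he => ?_⟩
    · rcases (Finset.mem_filter.1 hI).2 with h | h
      · exact hak I h
      · exact hbk I h
    · obtain ⟨η, hη, hη2⟩ := rgb_eta a' (fun I => (a I + b I) / 2) ha'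
        (fun I => by have := ha I; have := hb I; positivity) (fun I hI h => by
          have h4 : a I = 0 := by have := ha I; have := hb I; linarith
          have h5 : b I = 0 := by have := ha I; have := hb I; linarith
          refine hI (hs I fun h6 => ?_)
          rcases (Finset.mem_filter.1 h6).2 with h7 | h7
          · exact h7 h4
          · exact h7 h5)
      have h4 := hS.2 a (fun I => (a I + b I) / 2 + η * (b' I - a' I)) ha (fun I => by
        have h5 := hη2 I
        have h6 := mul_nonneg hη.le (hb' I)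
        show 0 ≤ (a I + b I) / 2 + η * (b' I - a' I)
        have h7 : η * (b' I - a' I) = η * b' I - η * a' I := by ring
        linarith) haS (fun I hI => by
          by_contra hk
          have h5 : a I = 0 := by by_contra h; exact hk (hak I h)
          have h6 : b I = 0 := by by_contra h; exact hk (hbk I h)
          have h7 : b' I = 0 := by by_contra h; exact hk (hc I h)
          have h8 : a' I = 0 := hs I fun h9 => by
            rcases (Finset.mem_filter.1 h9).2 with h | h
            · exact h h5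
            · exact h h6
          apply hI
          show (a I + b I) / 2 + η * (b' I - a' I) = 0
          rw [h5, h6, h7, h8]
          ring) (by
          rw [rgb_lin, he, sub_self, smul_zero, add_zero, ← hab, ← two_smul ℝ, smul_smul]
          norm_num)
      rw [rgb_lin', ← h3] at h4
      have h5 : η * (∑ I, b' I * d I - ∑ I, a' I * d I) ≤ 0 := by linarith
      have h6 : ∑ I, b' I * d I - ∑ I, a' I * d I ≤ 0 := by
        by_contra h7
        push Not at h7
        have := mul_pos hη h7
        linarith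
      linarith
  have hD := hind _ hU (fun I => a I - b I) ⟨fun I hI => by
    have h4 : a I = 0 ∧ b I = 0 := by
      by_contra h5
      apply hI
      refine Finset.mem_filter.2 ⟨Finset.mem_univ I, ?_⟩
      by_contra h6
      push Not at h6
      exact h5 h6
    show a I - b I = 0
    rw [h4.1, h4.2, sub_zero], by
    show ∑ I, (a I - b I) • ind I = 0
    simp only [sub_smul, Finset.sum_sub_distrib]
    rw [hab, sub_self]⟩
  intro I
  exact sub_eq_zero.1 (hD I)

private theorem rgb_pull {n : ℕ} (σ : Equiv.Perm (Fin n)) (a : Finset (Fin n) → ℝ) (i : Fin n) :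
    (∑ I, a (I.map σ.toEmbedding) • ind I) i = (∑ I, a I • ind I) (σ i) := by
  rw [Finset.sum_apply, Finset.sum_apply]
  rw [← Equiv.sum_comp σ.finsetCongr (fun I => (a I • ind I) (σ i))]
  refine Finset.sum_congr rfl fun I _ => ?_
  rw [Equiv.finsetCongr_apply, Pi.smul_apply, Pi.smul_apply]
  congr 1
  unfold ind
  simp only [Finset.mem_map_equiv, Equiv.symm_apply_apply]

private theorem rgb_pull' {n : ℕ} (σ : Equiv.Perm (Fin n)) (d a : Finset (Fin n) → ℝ)
    (hd : ∀ I : Finset (Fin n), d (I.map σ.toEmbedding) = d I) :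
    ∑ I, a (I.map σ.toEmbedding) * d I = ∑ I, a I * d I := by
  rw [← Equiv.sum_comp σ.finsetCongr (fun I => a I * d I)]
  refine Finset.sum_congr rfl fun I _ => ?_
  rw [Equiv.finsetCongr_apply, hd]

theorem regular_exists {k n : ℕ} (hk : 0 < k) (d : Finset (Fin n) → ℝ)
    (hind : ∀ S, Opt k d S → ∀ c, Dep S c → ∀ I, c I = 0)
    (G : Subgroup (Equiv.Perm (Fin n)))
    (hd : ∀ σ ∈ G, ∀ I : Finset (Fin n), d (I.map σ.toEmbedding) = d I) :
    ∃ T : LatticeTriangulation k n, Invariant G T := by
  classical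
  let K : Geometry.SimplicialComplex ℝ (Fin n → ℝ) :=
    { faces := {s | s.Nonempty ∧ ∃ S, Opt k d S ∧ S.image ind = s}
      isRelLowerSet_faces := by
        rintro s ⟨hne, S, hS, rfl⟩
        refine ⟨hne, fun t hts ht => ⟨ht, ?_⟩⟩
        obtain ⟨S', hS', rfl⟩ := Finset.subset_image_iff.1 hts
        exact ⟨S', rgb_mono hS hS', rfl⟩
      indep := by
        rintro s ⟨-, S, hS, rfl⟩
        rw [affineIndependent_iff]
        intro T w _ hw v hv
        obtain ⟨w', hw'⟩ : ∃ w' : (Fin n → ℝ) → ℝ, w' = fun v =>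
          if h : v ∈ S.image ind then (if (⟨v, h⟩ : (S.image ind : Finset (Fin n → ℝ))) ∈ T
            then w ⟨v, h⟩ else 0) else 0 := ⟨_, rfl⟩
        have h1 : ∀ u : (S.image ind : Finset (Fin n → ℝ)), w' u.1 = if u ∈ T then w u else 0 := by
          intro u
          rw [hw']
          show (if h : u.1 ∈ S.image ind then (if (⟨u.1, h⟩ : (S.image ind : Finset (Fin n → ℝ))) ∈ T
            then w ⟨u.1, h⟩ else 0) else 0) = _
          rw [dif_pos u.2]
        have h2 : ∑ I, (if I ∈ S then w' (ind I) else 0) • ind I = 0 := by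
          have h3 : ∑ I, (if I ∈ S then w' (ind I) else 0) • ind I = ∑ I ∈ S, w' (ind I) • ind I := by
            rw [← Finset.sum_subset (Finset.subset_univ S)]
            · exact Finset.sum_congr rfl fun I hI => by rw [if_pos hI]
            · intro I _ hI
              rw [if_neg hI, zero_smul]
          rw [h3, ← Finset.sum_image (f := fun v : Fin n → ℝ => w' v • v)
            fun I _ J _ h => ind_injective n h,
            ← Finset.sum_coe_sort (S.image ind) (fun v : Fin n → ℝ => w' v • v)]
          rw [← hw]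
          simp only [h1, ite_smul, zero_smul]
          rw [Finset.sum_ite_mem, Finset.univ_inter]
        have h3 := hind S hS (fun I => if I ∈ S then w' (ind I) else 0) ⟨fun I hI => if_neg hI, h2⟩
        obtain ⟨I, hI, hIv⟩ := Finset.mem_image.1 v.2
        have h4 := h3 I
        simp only [if_pos hI] at h4
        rw [hIv, h1 v, if_pos hv] at h4
        exact h4
      inter_subset_convexHull := by
        rintro s t ⟨-, S, hS, rfl⟩ ⟨-, S', hS', rfl⟩ p ⟨hp1, hp2⟩
        obtain ⟨a, ha0, haS, ha1, hap⟩ := rgb_hull hp1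
        obtain ⟨b, hb0, hbS, hb1, hbp⟩ := rgb_hull hp2
        have hab := rgb_unique hind hS hS' ha0 hb0 haS hbS (hap.trans hbp.symm)
        have h1 : p ∈ convexHull ℝ (((S ∩ S').image ind : Finset (Fin n → ℝ)) : Set (Fin n → ℝ)) :=
          rgb_hull' ha0 (fun I hI => by
            by_cases h : I ∈ S
            · rw [hab I]
              exact hbS I fun h' => hI (Finset.mem_inter.2 ⟨h, h'⟩)
            · exact haS I h) ha1 hap
        refine convexHull_mono ?_ h1
        intro v hv
        obtain ⟨I, hI, rfl⟩ := Finset.mem_image.1 (Finset.mem_coe.1 hv)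
        have hI' := Finset.mem_inter.1 hI
        exact ⟨Finset.mem_coe.2 (Finset.mem_image_of_mem _ hI'.1),
          Finset.mem_coe.2 (Finset.mem_image_of_mem _ hI'.2)⟩ }
  have hf : ∀ s, s ∈ K.faces ↔ s.Nonempty ∧ ∃ S, Opt k d S ∧ S.image ind = s := fun s => Iff.rfl
  refine ⟨⟨K, ?_, ?_⟩, ?_⟩
  · ext p
    rw [Geometry.SimplicialComplex.mem_space_iff]
    constructor
    · rintro ⟨s, hs, hp⟩
      obtain ⟨-, S, hS, rfl⟩ := (hf s).1 hs
      refine convexHull_min ?_ (rgb_convex k n) hp
      intro v hv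
      obtain ⟨I, hI, rfl⟩ := Finset.mem_image.1 (Finset.mem_coe.1 hv)
      exact rgb_ind_mem (hS.1 I hI)
    · intro hp
      obtain ⟨a, ha0, -, ha1, hap, hopt⟩ := exists_optimal hk d hp
      refine ⟨_, (hf _).2 ⟨?_, _, hopt, rfl⟩, rgb_hull' ha0 (fun I hI => ?_) ha1 hap⟩
      · rw [Finset.image_nonempty]
        by_contra hne
        rw [Finset.not_nonempty_iff_eq_empty] at hne
        have h1 : ∑ I, a I = 0 := Finset.sum_eq_zero fun I _ => by
          by_contra h
          have h2 : I ∈ Finset.univ.filter (fun I => a I ≠ 0) :=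
            Finset.mem_filter.2 ⟨Finset.mem_univ I, h⟩
          rw [hne] at h2
          exact absurd h2 (Finset.notMem_empty I)
        rw [h1] at ha1
        exact zero_ne_one ha1
      · by_contra h
        exact hI (Finset.mem_filter.2 ⟨Finset.mem_univ I, h⟩)
  · intro v hv i
    obtain ⟨-, S, hS, hSv⟩ := (hf _).1 (Geometry.SimplicialComplex.mem_vertices.1 hv)
    have h1 : v ∈ S.image ind := by rw [hSv]; exact Finset.mem_singleton_self v
    obtain ⟨I, -, rfl⟩ := Finset.mem_image.1 h1
    unfold ind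
    split_ifs
    · exact ⟨1, by norm_num⟩
    · exact ⟨0, by norm_num⟩
  · intro σ hσ s hs
    obtain ⟨hne, S, hS, rfl⟩ := (hf s).1 hs
    refine ⟨(S.image fun I => I.map σ.toEmbedding).image ind, (hf _).2 ⟨?_, _, ⟨?_, ?_⟩, rfl⟩, ?_⟩
    · rw [Finset.image_nonempty] at hne ⊢
      exact hne.image _
    · intro J hJ
      obtain ⟨I, hI, rfl⟩ := Finset.mem_image.1 hJ
      rw [Finset.card_map]
      exact hS.1 I hI
    · intro a b ha hb hs' hc he
      have h1 := hS.2 (fun I => a (I.map σ.toEmbedding)) (fun I => b (I.map σ.toEmbedding))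
        (fun I => ha _) (fun I => hb _) (fun I hI => hs' _ fun h => by
          obtain ⟨I', hI', h2⟩ := Finset.mem_image.1 h
          exact hI ((Finset.map_injective σ.toEmbedding h2) ▸ hI'))
        (fun I hI => by rw [← hc _ hI, Finset.card_map]) (by
          funext i
          rw [rgb_pull, rgb_pull, he])
      rwa [rgb_pull' σ d a (hd σ hσ), rgb_pull' σ d b (hd σ hσ)] at h1
    · rw [Finset.coe_image, Finset.coe_image, Finset.coe_image, Set.image_image, Set.image_image]
      exact Set.image_congr fun I _ => (permute_ind σ I).symm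

end Pool.Agent.Lib.HyS
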